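import Pool.Agent.P8H84.CpTwo.Step
import Pool.Agent.Helper292.ForceCH

/-!
# The family of clopen sets

Under the continuum hypothesis the successor step is iterated `ω₁` times.
-/

set_option autoImplicit false

open Set Cardinal

namespace Pool.Agent.P8H84.CpTwo

open Pool.Agent.Helper292.ForceCH (Om countable_Iio exists_bound ub lt_ub ub_le)

/-- transfinite recursion for relations -/
theorem exists_rec {W P : Type} [LinearOrder W] [WellFoundedLT W] [Inhabited P]
    (R : W → (W → P) → P → Prop)
    (hR : ∀ α g g' p, (∀ β < α, g β = g' β) → R α g p → R α g' p)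
    (hex : ∀ α g, (∀ β < α, R β g (g β)) → ∃ p, R α g p) : ∃ g : W → P, ∀ α, R α g (g α) := by
  classical
  let F : (α : W) → ((β : W) → β < α → P) → P := fun α f =>
    if h : ∃ p, R α (fun β => if hβ : β < α then f β hβ else default) p then h.choose else default
  let g : W → P := (wellFounded_lt (α := W)).fix F
  have hg : ∀ α, g α = F α (fun β _ => g β) := fun α => WellFounded.fix_eq _ F α
  refine ⟨g, fun α => ?_⟩
  induction α using WellFoundedLT.induction with
  | ind α ih =>
  obtain ⟨p, hp⟩ := hex α g ih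
  have hc : ∀ β < α, g β = (fun β => if _hβ : β < α then g β else default) β := by
    intro β hβ
    simp [hβ]
  have h : ∃ p, R α (fun β => if _hβ : β < α then g β else default) p := ⟨p, hR α _ _ p hc hp⟩
  have h2 : g α = h.choose := by
    rw [hg α]
    exact dif_pos h
  rw [h2]
  exact hR α _ _ _ (fun β hβ => (hc β hβ).symm) h.choose_spec

/-- a pair as a function on `Bool` -/
def val (g : Om → Set M × Set M) (w : Om × Bool) : Set M := cond w.2 (g w.1).1 (g w.1).2

/-- the union over a finite set of indices -/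
def UU (g : Om → Set M × Set M) (R : Finset (Om × Bool)) : Set M := ⋃ w ∈ R, val g w

lemma UU_congr {g g' : Om → Set M × Set M} {α : Om} (h : ∀ β < α, g β = g' β)
    {R : Finset (Om × Bool)} (hR : ∀ w ∈ R, w.1 < α) : UU g R = UU g' R := by
  unfold UU
  apply Set.iUnion₂_congr
  intro w hw
  simp only [val]
  rw [h _ (hR w hw)]

/-- the requirement on the pair with the index `α` -/
def Good (code : Om → Code) (α : Om) (g : Om → Set M × Set M) (p : Set M × Set M) : Prop :=
  Clo p.1 ∧ Clo p.2 ∧ Disjoint p.1 p.2 ∧ InE p.1 p.2 ∧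
  (∀ β < α, ∃ n, ∀ x ∈ (p.1 ∪ p.2) ∩ ((g β).1 ∪ (g β).2), x.1 < n) ∧
  (∀ R : Finset (Om × Bool), (∀ w ∈ R, w.1 < α) →
    {r | ((r, none) : M) ∉ (p.1 ∪ p.2) ∪ UU g R}.Infinite) ∧
  ∀ ξ < α, ∀ R : Finset (Om × Bool), (∀ w ∈ R, w.1 < α) →
    (∀ D, KM D → symmDiff (UU g R) D ∈ OO (code ξ)) → ∀ C, KM C →
      symmDiff (UU g R ∪ p.1) C ∈ OO (code ξ) ∧ symmDiff (UU g R ∪ p.2) C ∈ OO (code ξ) ∧
      symmDiff (UU g R ∪ (p.1 ∪ p.2)) C ∈ OO (code ξ)

lemma good_congr (code : Om → Code) (α : Om) (g g' : Om → Set M × Set M) (p : Set M × Set M)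
    (h : ∀ β < α, g β = g' β) (hg : Good code α g p) : Good code α g' p := by
  obtain ⟨h1, h2, h3, h4, h5, h6, h7⟩ := hg
  refine ⟨h1, h2, h3, h4, ?_, ?_, ?_⟩
  · intro β hβ
    rw [← h β hβ]
    exact h5 β hβ
  · intro R hR
    rw [← UU_congr h hR]
    exact h6 R hR
  · intro ξ hξ R hR
    rw [← UU_congr h hR]
    exact h7 ξ hξ R hR

lemma countable_below (α : Om) : {w : Om × Bool | w.1 < α}.Countable := by
  have h1 : (Set.Iio α).Countable := countable_Iio α
  have : {w : Om × Bool | w.1 < α} ⊆ (Set.Iio α) ×ˢ (Set.univ : Set Bool) := by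
    intro w hw
    exact ⟨hw, mem_univ _⟩
  exact Set.Countable.mono this (h1.prod (Set.to_countable _))

lemma countable_finsets (α : Om) : {R : Finset (Om × Bool) | ∀ w ∈ R, w.1 < α}.Countable := by
  have h := countable_below α
  have h2 : {R : Finset (Om × Bool) | (R : Set (Om × Bool)) ⊆ {w : Om × Bool | w.1 < α}}.Countable := by
    have h3 := Set.countable_ofPred_finite_subset h
    refine Set.MapsTo.countable_of_injOn (f := fun R : Finset (Om × Bool) => (R : Set (Om × Bool)))
      ?_ ?_ h3
    · intro R hR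
      exact ⟨Finset.finite_toSet R, hR⟩
    · intro R _ R' _ h
      exact Finset.coe_injective h
  exact h2

lemma good_exists_pair (code : Om → Code) (α : Om) (g : Om → Set M × Set M)
    (ih : ∀ β < α, Good code β g (g β)) : ∃ p, Good code α g p := by
  classical
  -- availability
  have hclo : ∀ w : Om × Bool, w.1 < α → Clo (val g w) := by
    rintro ⟨β, e⟩ hβ
    cases e
    · exact (ih β hβ).2.1
    · exact (ih β hβ).1
  have hUclo : ∀ R : Finset (Om × Bool), (∀ w ∈ R, w.1 < α) → Clo (UU g R) := fun R hR =>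
    clo_biUnion R _ fun w hw => hclo w (hR w hw)
  have hav : ∀ R : Finset (Om × Bool), (∀ w ∈ R, w.1 < α) →
      {r | ((r, none) : M) ∉ UU g R}.Infinite := by
    intro R hR
    rcases R.eq_empty_or_nonempty with rfl | hne
    · have : {r : ℕ | ((r, none) : M) ∉ UU g ∅} = Set.univ := by
        ext r
        simp [UU]
      rw [this]
      exact Set.infinite_univ
    · obtain ⟨w0, hw0, hmax⟩ := Finset.exists_max_image R (fun w => w.1) hne
      have h1 := (ih w0.1 (hR w0 hw0)).2.2.2.2.2.1 (R.filter fun w => w.1 < w0.1)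
        (fun w hw => (Finset.mem_filter.1 hw).2)
      refine h1.mono ?_
      intro r hr hr'
      apply hr
      simp only [UU, mem_iUnion] at hr'
      obtain ⟨w, hw, hx⟩ := hr'
      rcases lt_or_eq_of_le (hmax w hw) with h2 | h2
      · right
        simp only [UU, mem_iUnion]
        exact ⟨w, Finset.mem_filter.2 ⟨hw, h2⟩, hx⟩
      · left
        rw [← h2]
        rcases w with ⟨β, e⟩
        cases e
        · exact Or.inr hx
        · exact Or.inl hx
  -- the enumeration of the previous sets
  let SB : Set (Set M) := insert ∅ ((fun β => (g β).1 ∪ (g β).2) '' {β | β < α})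
  have hSB : SB.Countable := 
    ((show ({β | β < α} : Set Om).Countable from countable_Iio α).image _).insert _
  obtain ⟨Bs, hBs⟩ := hSB.exists_eq_range ⟨∅, mem_insert _ _⟩
  have hBmem : ∀ i, Bs i ∈ SB := fun i => by rw [hBs]; exact mem_range_self i
  have hBclo : ∀ i, Clo (Bs i) := by
    intro i
    rcases hBmem i with h | ⟨β, hβ, h⟩
    · rw [h]; exact clo_empty
    · rw [← h]; exact (ih β hβ).1.union (ih β hβ).2.1
  have hfin : ∀ n, ∃ R : Finset (Om × Bool), (∀ w ∈ R, w.1 < α) ∧ VV Bs n ⊆ UU g R := by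
    intro n
    induction n with
    | zero =>
      refine ⟨∅, by simp, ?_⟩
      rintro x ⟨i, hi, -⟩
      exact absurd hi (Nat.not_lt_zero _)
    | succ n ihn =>
      obtain ⟨R, hR, hV⟩ := ihn
      have hstep : ∀ x ∈ VV Bs (n + 1), x ∈ VV Bs n ∨ x ∈ Bs n := by
        rintro x ⟨i, hi, hx⟩
        rcases Nat.lt_succ_iff_lt_or_eq.1 hi with h | h
        · exact Or.inl ⟨i, h, hx⟩
        · subst h; exact Or.inr hx
      rcases hBmem n with h | ⟨β, hβ, h⟩
      · refine ⟨R, hR, fun x hx => ?_⟩
        rcases hstep x hx with h' | h'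
        · exact hV h'
        · rw [h] at h'; exact absurd h' (Set.notMem_empty _)
      · refine ⟨R ∪ {(β, true), (β, false)}, ?_, ?_⟩
        · intro w hw
          rcases Finset.mem_union.1 hw with h' | h'
          · exact hR w h'
          · simp only [Finset.mem_insert, Finset.mem_singleton] at h'
            rcases h' with rfl | rfl <;> exact hβ
        · intro x hx
          rcases hstep x hx with h' | h'
          · have := hV h'
            simp only [UU, mem_iUnion] at this ⊢
            obtain ⟨w, hw, hx⟩ := this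
            exact ⟨w, Finset.mem_union_left _ hw, hx⟩
          · rw [← h] at h'
            simp only [UU, mem_iUnion]
            rcases h' with h' | h'
            · exact ⟨(β, true), by simp, h'⟩
            · exact ⟨(β, false), by simp, h'⟩
  have hBav : ∀ n, {r | ((r, none) : M) ∉ VV Bs n}.Infinite := by
    intro n
    obtain ⟨R, hR, hV⟩ := hfin n
    refine (hav R hR).mono ?_
    intro r hr hr'
    exact hr (hV hr')
  -- the enumeration of the tasks
  let ST : Set (Code × Set M) := insert (fun _ => (∅, ∅), ∅)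
    {q | (∃ ξ < α, ∃ R : Finset (Om × Bool), (∀ w ∈ R, w.1 < α) ∧ q = (code ξ, UU g R)) ∧
      ∀ D, KM D → symmDiff q.2 D ∈ OO q.1}
  have hST : ST.Countable := by
    apply Set.Countable.insert
    have h1 : ({ξ | ξ < α} ×ˢ {R : Finset (Om × Bool) | ∀ w ∈ R, w.1 < α}).Countable :=
      Set.Countable.prod (countable_Iio α) (countable_finsets α)
    refine Set.Countable.mono ?_ (h1.image fun q => (code q.1, UU g q.2))
    rintro q ⟨⟨ξ, hξ, R, hR, hq⟩, -⟩
    exact ⟨(ξ, R), ⟨hξ, hR⟩, hq.symm⟩
  obtain ⟨T, hT⟩ := hST.exists_eq_range ⟨_, mem_insert _ _⟩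
  have hTmem : ∀ t, T t ∈ ST := fun t => by rw [hT]; exact mem_range_self t
  have hTok : ∀ t, Clo (T t).2 ∧ ∀ D, KM D → symmDiff (T t).2 D ∈ OO (T t).1 := by
    intro t
    rcases hTmem t with h | ⟨⟨ξ, hξ, R, hR, hq⟩, h⟩
    · rw [h]
      exact ⟨clo_empty, fun D _ => ⟨0, by simp⟩⟩
    · refine ⟨?_, h⟩
      rw [hq]
      exact hUclo R hR
  obtain ⟨a, b, ha, hb, hab, hE, hi, hinf, htask⟩ := step Bs hBclo hBav T hTok
  refine ⟨(a, b), ha, hb, hab, hE, ?_, ?_, ?_⟩
  · intro β hβ
    have : (g β).1 ∪ (g β).2 ∈ SB := Or.inr ⟨β, hβ, rfl⟩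
    rw [hBs] at this
    obtain ⟨i, hi'⟩ := this
    obtain ⟨n, hn⟩ := hi i
    rw [hi'] at hn
    exact ⟨n, hn⟩
  · intro R hR
    have : ∃ n, UU g R ⊆ VV Bs n := by
      induction R using Finset.induction_on with
      | empty => exact ⟨0, by simp [UU]⟩
      | insert w R hw ihR =>
        obtain ⟨n, hn⟩ := ihR fun w' hw' => hR w' (Finset.mem_insert_of_mem hw')
        have hwα : w.1 < α := hR w (Finset.mem_insert_self _ _)
        have : (g w.1).1 ∪ (g w.1).2 ∈ SB := Or.inr ⟨w.1, hwα, rfl⟩
        rw [hBs] at this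
        obtain ⟨i, hi'⟩ := this
        refine ⟨max n (i + 1), ?_⟩
        intro x hx
        simp only [UU, mem_iUnion, Finset.mem_insert] at hx
        obtain ⟨w', hw' | hw', hx⟩ := hx
        · subst hw'
          refine ⟨i, lt_of_lt_of_le (Nat.lt_succ_self _) (le_max_right _ _), ?_⟩
          rw [hi']
          rcases w' with ⟨β, e⟩
          cases e
          · exact Or.inr hx
          · exact Or.inl hx
        · obtain ⟨q, hq, hx'⟩ := hn (by
            simp only [UU, mem_iUnion]
            exact ⟨w', hw', hx⟩ : x ∈ UU g R)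
          exact ⟨q, lt_of_lt_of_le hq (le_max_left _ _), hx'⟩
    obtain ⟨n, hn⟩ := this
    refine (hinf n).mono ?_
    rintro r hr (hr' | hr')
    · exact hr (Or.inl hr')
    · exact hr (Or.inr (hn hr'))
  · intro ξ hξ R hR hD C hC
    have : (code ξ, UU g R) ∈ ST := Or.inr ⟨⟨ξ, hξ, R, hR, rfl⟩, hD⟩
    rw [hT] at this
    obtain ⟨t, ht⟩ := this
    have := htask t C hC
    rw [ht] at this
    exact this

/-- the properties of the family -/
structure Fam (fam : Om × Bool → Set M) : Prop where
  clo : ∀ w, Clo (fam w)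
  disj : ∀ α, Disjoint (fam (α, true)) (fam (α, false))
  inE : ∀ α, InE (fam (α, true)) (fam (α, false))
  ad : ∀ w w', w ≠ w' → ∃ n, ∀ x ∈ fam w ∩ fam w', x.1 < n
  conc : ∀ (c : Code) (R : Finset (Om × Bool)),
    (∀ D, KM D → symmDiff (⋃ w ∈ R, fam w) D ∈ OO c) →
    ∃ γ, ∀ R' : Finset (Om × Bool), (∀ w ∈ R', γ ≤ w.1) → ∀ C, KM C →
      symmDiff ((⋃ w ∈ R, fam w) ∪ ⋃ w ∈ R', fam w) C ∈ OO c

theorem exists_surj (hCH : Cardinal.aleph 1 = Cardinal.continuum.{0}) :
    ∃ code : Om → Code, Function.Surjective code := by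
  have h1 : #Code = Cardinal.continuum := by
    show #(ℕ → Finset M × Finset M) = _
    rw [← Cardinal.power_def]
    have h2 : #(Finset M × Finset M) = ℵ₀ := Cardinal.mk_eq_aleph0 _
    rw [h2, Cardinal.mk_nat, Cardinal.aleph0_power_aleph0]
  have h2 : #Om = Cardinal.continuum := by
    rw [← hCH]
    simp [Om]
  have h3 : #Code = #Om := h1.trans h2.symm
  obtain ⟨e⟩ := Cardinal.eq.1 h3
  exact ⟨e.symm, e.symm.surjective⟩

theorem exists_fam (hCH : Cardinal.aleph 1 = Cardinal.continuum.{0}) :
    ∃ fam : Om × Bool → Set M, Fam fam := by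
  classical
  obtain ⟨code, hcode⟩ := exists_surj hCH
  obtain ⟨g, hg⟩ := exists_rec (Good code) (good_congr code) (good_exists_pair code)
  refine ⟨val g, ?_, fun α => (hg α).2.2.1, fun α => (hg α).2.2.2.1, ?_, ?_⟩
  · rintro ⟨α, e⟩
    cases e
    · exact (hg α).2.1
    · exact (hg α).1
  · have key : ∀ (w w' : Om × Bool), w'.1 < w.1 → ∃ n, ∀ x ∈ val g w ∩ val g w', x.1 < n := by
      intro w w' h
      obtain ⟨n, hn⟩ := (hg w.1).2.2.2.2.1 w'.1 h
      have aux : ∀ (v : Om × Bool) x, x ∈ val g v → x ∈ (g v.1).1 ∪ (g v.1).2 := by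
        rintro ⟨β, e⟩ x hx
        cases e
        · exact Or.inr hx
        · exact Or.inl hx
      exact ⟨n, fun x hx => hn x ⟨aux w x hx.1, aux w' x hx.2⟩⟩
    intro w w' hne
    rcases lt_trichotomy w.1 w'.1 with h | h | h
    · obtain ⟨n, hn⟩ := key w' w h
      exact ⟨n, fun x hx => hn x ⟨hx.2, hx.1⟩⟩
    · rcases w with ⟨α, e⟩
      rcases w' with ⟨β, e'⟩
      dsimp only at h
      subst h
      refine ⟨0, fun x hx => ?_⟩
      exfalso
      have hd := Set.disjoint_left.1 (hg α).2.2.1
      cases e <;> cases e'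
      · exact hne rfl
      · exact hd hx.2 hx.1
      · exact hd hx.1 hx.2
      · exact hne rfl
    · exact key w w' h
  · intro c R hR
    obtain ⟨ξ, rfl⟩ := hcode c
    obtain ⟨γ, hγ⟩ : ∃ γ : Om, ξ < γ ∧ ∀ w ∈ R, w.1 < γ := by
      obtain ⟨γ, hγ⟩ : ∃ γ : Om, ∀ β ∈ insert ξ (R.image fun w => w.1), β ≤ γ :=
        ⟨(insert ξ (R.image fun w => w.1)).max' (Finset.insert_nonempty _ _),
          fun β hβ => Finset.le_max' _ _ hβ⟩
      obtain ⟨γ', hγ'⟩ := exists_gt γ
      refine ⟨γ', lt_of_le_of_lt (hγ ξ (Finset.mem_insert_self _ _)) hγ', fun w hw => ?_⟩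
      exact lt_of_le_of_lt (hγ w.1 (Finset.mem_insert_of_mem (Finset.mem_image_of_mem _ hw))) hγ'
    refine ⟨γ, ?_⟩
    -- induction on the size of `R'`
    have main : ∀ (k : ℕ) (R' : Finset (Om × Bool)), R'.card = k → (∀ w ∈ R', γ ≤ w.1) →
        ∀ C, KM C → symmDiff (UU g R ∪ UU g R') C ∈ OO (code ξ) := by
      intro k
      induction k using Nat.strong_induction_on with
      | _ k ihk =>
      intro R' hk hR' C hC
      rcases R'.eq_empty_or_nonempty with rfl | hne
      · have : UU g ∅ = ∅ := by simp [UU]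
        rw [this, Set.union_empty]
        exact hR C hC
      · obtain ⟨w0, hw0, hmax⟩ := Finset.exists_max_image R' (fun w => w.1) hne
        obtain ⟨α, hα⟩ : ∃ α, w0.1 = α := ⟨_, rfl⟩
        let R'' := R'.filter fun w => w.1 < α
        have hcard : R''.card < k := by
          rw [← hk]
          apply Finset.card_lt_card
          rw [Finset.ssubset_iff_of_subset (Finset.filter_subset _ _)]
          refine ⟨w0, hw0, fun h => ?_⟩
          have := (Finset.mem_filter.1 h).2
          rw [hα] at this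
          exact lt_irrefl _ this
        have h1 := ihk _ hcard R'' rfl fun w hw => hR' w (Finset.mem_filter.1 hw).1
        have hγα : γ ≤ α := hα ▸ hR' w0 hw0
        have hun : UU g (R ∪ R'') = UU g R ∪ UU g R'' := by
          unfold UU
          rw [Finset.set_biUnion_union]
        have h2 := (hg α).2.2.2.2.2.2 ξ (hγ.1.trans_le hγα) (R ∪ R'') (by
          intro w hw
          rcases Finset.mem_union.1 hw with h | h
          · exact (hγ.2 w h).trans_le hγα
          · exact (Finset.mem_filter.1 h).2) (by rw [hun]; exact h1) C hC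
        rw [hun] at h2
        -- the part with the index `α`
        have hsplit : UU g R' = UU g R'' ∪ UU g (R'.filter fun w => w.1 = α) := by
          ext x
          simp only [UU, mem_iUnion, mem_union]
          constructor
          · rintro ⟨w, hw, hx⟩
            have : w.1 ≤ α := hα ▸ hmax w hw
            rcases lt_or_eq_of_le this with h | h
            · exact Or.inl ⟨w, Finset.mem_filter.2 ⟨hw, h⟩, hx⟩
            · exact Or.inr ⟨w, Finset.mem_filter.2 ⟨hw, h⟩, hx⟩
          · rintro (⟨w, hw, hx⟩ | ⟨w, hw, hx⟩)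
            · exact ⟨w, (Finset.mem_filter.1 hw).1, hx⟩
            · exact ⟨w, (Finset.mem_filter.1 hw).1, hx⟩
        have htop : UU g (R'.filter fun w => w.1 = α) = (g α).1 ∨
            UU g (R'.filter fun w => w.1 = α) = (g α).2 ∨
            UU g (R'.filter fun w => w.1 = α) = (g α).1 ∪ (g α).2 := by
          have hdesc : ∀ x, x ∈ UU g (R'.filter fun w => w.1 = α) ↔
              ((α, true) ∈ R' ∧ x ∈ (g α).1) ∨ ((α, false) ∈ R' ∧ x ∈ (g α).2) := by
            intro x
            simp only [UU, mem_iUnion, Finset.mem_filter]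
            constructor
            · rintro ⟨⟨β, e⟩, ⟨hw, h⟩, hx⟩
              dsimp only at h
              subst h
              cases e
              · exact Or.inr ⟨hw, hx⟩
              · exact Or.inl ⟨hw, hx⟩
            · rintro (⟨h, hx⟩ | ⟨h, hx⟩)
              · exact ⟨(α, true), ⟨h, rfl⟩, hx⟩
              · exact ⟨(α, false), ⟨h, rfl⟩, hx⟩
          by_cases ht : (α, true) ∈ R' <;> by_cases hf : (α, false) ∈ R'
          · right; right
            ext x
            rw [hdesc]
            simp [ht, hf]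
          · left
            ext x
            rw [hdesc]
            simp [ht, hf]
          · right; left
            ext x
            rw [hdesc]
            simp [ht, hf]
          · exfalso
            rcases w0 with ⟨β, e⟩
            dsimp only at hα
            subst hα
            cases e
            · exact hf hw0
            · exact ht hw0
        rw [hsplit, ← Set.union_assoc]
        rcases htop with h | h | h <;> rw [h]
        · exact h2.1
        · exact h2.2.1
        · exact h2.2.2
    intro R' hR' C hC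
    exact main _ R' rfl hR' C hC

end Pool.Agent.P8H84.CpTwo
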