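import Pool.Agent.P8H84.CpTwo.Space

/-!
# The function space is Lindelöf
-/

set_option autoImplicit false

open Set Cardinal Topology Filter

namespace Pool.Agent.P8H84.CpTwo

open Pool.Agent.Helper292.ForceCH (Om countable_Iio exists_bound ub lt_ub ub_le)

/-- the function space -/
abbrev ZZ (fam : Om × Bool → Set M) : Type := {f : XX fam → Bool // Continuous f}

variable {fam : Om × Bool → Set M}

open Classical in
/-- the characteristic function of a clopen set -/
noncomputable def chi (T : Set (XX fam)) : ZZ fam :=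
  if h : IsClopen T then ⟨fun x => decide (x ∈ T), by
    rw [continuous_discrete_rng]
    intro b
    cases b
    · have : (fun x : XX fam => decide (x ∈ T)) ⁻¹' {false} = Tᶜ := by ext x; simp
      rw [this]; exact h.compl.2
    · have : (fun x : XX fam => decide (x ∈ T)) ⁻¹' {true} = T := by ext x; simp
      rw [this]; exact h.2⟩ else ⟨fun _ => false, continuous_const⟩

lemma chi_apply {T : Set (XX fam)} (h : IsClopen T) (x : XX fam) : (chi T).1 x = true ↔ x ∈ T := by
  unfold chi
  rw [dif_pos h]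
  simp

lemma isClopen_supp (f : ZZ fam) : IsClopen {x | f.1 x = true} := by
  have : {x | f.1 x = true} = f.1 ⁻¹' {true} := rfl
  rw [this]
  exact (isClopen_discrete _).preimage f.2

lemma exists_finset_nhd {V : Set (ZZ fam)} (hV : IsOpen V) {f : ZZ fam} (hf : f ∈ V) :
    ∃ P : Finset (XX fam), ∀ g : ZZ fam, (∀ x ∈ P, g.1 x = f.1 x) → g ∈ V := by
  obtain ⟨W, hW, rfl⟩ := isOpen_induced_iff.1 hV
  obtain ⟨I, u, hu, hsub⟩ := isOpen_pi_iff.1 hW f.1 hf
  refine ⟨I, fun g hg => hsub ?_⟩
  intro i hi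
  rw [hg i hi]
  exact (hu i hi).2

lemma exists_bound_set {S : Set Om} (hS : S.Countable) : ∃ a : Om, ∀ b ∈ S, b < a := by
  rcases S.eq_empty_or_nonempty with rfl | hne
  · obtain ⟨a, -⟩ := exists_bound fun _ => Classical.arbitrary Om
    exact ⟨a, fun b hb => absurd hb (Set.notMem_empty _)⟩
  · obtain ⟨e, rfl⟩ := hS.exists_eq_range hne
    obtain ⟨a, ha⟩ := exists_bound e
    exact ⟨a, by rintro _ ⟨n, rfl⟩; exact ha n⟩

/-- the closed subspace of the functions which vanish at `∞` -/
theorem isLindelof_Z0 (h : Fam fam) : IsLindelof {f : ZZ fam | f.1 (inf fam) = false} := by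
  classical
  apply isLindelof_of_countable_subcover
  intro ι U hU hcov
  have hsel : ∀ f : ZZ fam, ∃ i : ι, ∃ P : Finset (XX fam), f.1 (inf fam) = false →
      ∀ g : ZZ fam, (∀ x ∈ P, g.1 x = f.1 x) → g ∈ U i := by
    intro f
    by_cases hf : f.1 (inf fam) = false
    · obtain ⟨i, hi⟩ := mem_iUnion.1 (hcov hf)
      obtain ⟨P, hP⟩ := exists_finset_nhd (hU i) hi
      exact ⟨i, P, fun _ => hP⟩
    · have h0 : (chi (∅ : Set (XX fam))).1 (inf fam) = false := by
        rw [← Bool.not_eq_true, chi_apply isClopen_empty]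
        exact Set.notMem_empty _
      obtain ⟨i, hi⟩ := mem_iUnion.1 (hcov h0)
      exact ⟨i, ∅, fun h => absurd h hf⟩
  choose ix P hP using hsel
  obtain ⟨kc, hkc⟩ := countable_KM.exists_eq_range ⟨∅, km_empty⟩
  have hkc' : ∀ i, KM (kc i) := fun i => by
    have : kc i ∈ {U : Set M | KM U} := by rw [hkc]; exact mem_range_self i
    exact this
  let fn : Finset (Om × Bool) → ℕ → ZZ fam := fun R n => chi (SS fam R (kc n))
  have hfn : ∀ R n x, (fn R n).1 x = true ↔ x ∈ SS fam R (kc n) := fun R n x =>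
    chi_apply (isClopen_SS R (hkc' n)) x
  have hfninf : ∀ R n, (fn R n).1 (inf fam) = false := by
    intro R n
    rw [← Bool.not_eq_true, hfn]
    exact inf_SS
  have hptinj : Function.Injective (pt fam) := fun x y h => pt_inj h
  let cR : Finset (Om × Bool) → Code := fun R n =>
    ((P (fn R n)).preimage (pt fam) hptinj.injOn,
      ((P (fn R n)).preimage (pt fam) hptinj.injOn).filter
        fun x => x ∈ symmDiff (⋃ w ∈ R, fam w) (kc n))
  have hconc : ∀ R : Finset (Om × Bool), ∃ γ : Om,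
      (∀ R' : Finset (Om × Bool), (∀ w ∈ R', γ ≤ w.1) → ∀ C, KM C →
        symmDiff ((⋃ w ∈ R, fam w) ∪ ⋃ w ∈ R', fam w) C ∈ OO (cR R)) ∧
      ∀ n w, dl fam w ∈ P (fn R n) → w.1 < γ := by
    intro R
    obtain ⟨γ, hγ⟩ := h.conc (cR R) R (by
      intro D hD
      have : D ∈ range kc := by rw [← hkc]; exact hD
      obtain ⟨n, rfl⟩ := this
      refine ⟨n, fun x hx => ?_⟩
      simp only [cR, Finset.mem_filter]
      exact ⟨fun h => ⟨hx, h⟩, fun h => h.2⟩)
    have hS : (⋃ n, (fun w : Om × Bool => w.1) '' {w | dl fam w ∈ P (fn R n)}).Countable := by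
      refine Set.countable_iUnion fun n => ?_
      refine Set.Finite.countable (Set.Finite.image _ ?_)
      exact (Finset.finite_toSet (P (fn R n))).preimage (f := dl fam)
        (Function.Injective.injOn fun x y h => dl_inj h)
    obtain ⟨a, ha⟩ := exists_bound_set hS
    refine ⟨max γ a, fun R' hR' => hγ R' fun w hw => (le_max_left _ _).trans (hR' w hw), ?_⟩
    intro n w hw
    exact (ha w.1 (mem_iUnion.2 ⟨n, w, hw, rfl⟩)).trans_le (le_max_right _ _)
  choose G hG1 hG2 using hconc
  -- closing off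
  have hnext : ∀ d : Om, ∃ d' : Om, d < d' ∧ ∀ R : Finset (Om × Bool), (∀ w ∈ R, w.1 < d) → G R < d' := by
    intro d
    obtain ⟨a, ha⟩ := exists_bound_set ((countable_finsets d).image G)
    obtain ⟨a', ha'⟩ := exists_gt (max a d)
    refine ⟨a', (le_max_right _ _).trans_lt ha', fun R hR => ?_⟩
    exact (ha _ ⟨R, hR, rfl⟩).trans ((le_max_left _ _).trans_lt ha')
  choose nx hnx1 hnx2 using hnext
  let d : ℕ → Om := fun n => nx^[n] (Classical.arbitrary Om)
  have hd : ∀ n, d (n + 1) = nx (d n) := fun n => Function.iterate_succ_apply' _ _ _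
  have hdm : StrictMono d := strictMono_nat_of_lt_succ fun n => by rw [hd]; exact hnx1 _
  let δ := ub d
  have hδ : ∀ R : Finset (Om × Bool), (∀ w ∈ R, w.1 < δ) → G R ≤ δ := by
    intro R hR
    have : ∃ N, ∀ w ∈ R, w.1 < d N := by
      have hw : ∀ w : Om × Bool, ∃ n, w ∈ R → w.1 < d n := by
        intro w
        by_cases hw : w ∈ R
        · obtain ⟨n, hn⟩ := ub_le d (hR w hw)
          exact ⟨n + 1, fun _ => hn.trans_lt (hdm (Nat.lt_succ_self n))⟩
        · exact ⟨0, fun h => absurd h hw⟩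
      choose f hf using hw
      refine ⟨R.sup f, fun w hw => (hf w hw).trans_le (hdm.monotone (Finset.le_sup hw))⟩
    obtain ⟨N, hN⟩ := this
    have h1 := hnx2 (d N) R hN
    rw [← hd] at h1
    exact (h1.trans (lt_ub d (N + 1))).le
  refine ⟨⋃ n, (fun R => ix (fn R n)) '' {R : Finset (Om × Bool) | ∀ w ∈ R, w.1 < δ}, ?_, ?_⟩
  · exact Set.countable_iUnion fun n => (countable_finsets δ).image _
  · intro f hf
    obtain ⟨Q, C, hC, hT⟩ := exists_SS h (isClopen_supp f) (by
      rw [mem_ofPred_eq]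
      exact (Bool.not_eq_true _).mpr hf)
    let R := Q.filter fun w => w.1 < δ
    let R' := Q.filter fun w => ¬ w.1 < δ
    have hRδ : ∀ w ∈ R, w.1 < δ := fun w hw => (Finset.mem_filter.1 hw).2
    obtain ⟨n, hn⟩ := hG1 R R' (fun w hw => (hδ R hRδ).trans (not_lt.1 (Finset.mem_filter.1 hw).2)) C hC
    have hun : (⋃ w ∈ R, fam w) ∪ (⋃ w ∈ R', fam w) = ⋃ w ∈ Q, fam w := by
      ext x
      simp only [mem_union, mem_iUnion, exists_prop, R, R', Finset.mem_filter]
      constructor
      · rintro (⟨w, ⟨hw, -⟩, hx⟩ | ⟨w, ⟨hw, -⟩, hx⟩)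
        · exact ⟨w, hw, hx⟩
        · exact ⟨w, hw, hx⟩
      · rintro ⟨w, hw, hx⟩
        by_cases h : w.1 < δ
        · exact Or.inl ⟨w, ⟨hw, h⟩, hx⟩
        · exact Or.inr ⟨w, ⟨hw, h⟩, hx⟩
    rw [hun] at hn
    refine mem_iUnion₂.2 ⟨ix (fn R n), mem_iUnion.2 ⟨n, R, hRδ, rfl⟩, ?_⟩
    refine hP (fn R n) (hfninf R n) f fun x hx => ?_
    have hfx : f.1 x = true ↔ x ∈ SS fam Q C := by
      rw [← hT]; exact Iff.rfl
    rw [Bool.eq_iff_iff, hfx, hfn]
    rcases cases_XX x with ⟨y, rfl⟩ | ⟨w, rfl⟩ | rfl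
    · rw [pt_SS, pt_SS]
      have hy : y ∈ (cR R n).1 := by
        simp only [cR, Finset.mem_preimage]
        exact hx
      rw [hn y hy]
      simp only [cR, Finset.mem_filter, Finset.mem_preimage]
      exact ⟨fun h => h.2, fun h => ⟨hx, h⟩⟩
    · rw [dl_SS, dl_SS]
      have hw : w.1 < δ := (hG2 R n w hx).trans_le (hδ R hRδ)
      simp [R, hw]
    · exact ⟨fun h => absurd h inf_SS, fun h => absurd h inf_SS⟩

/-- the negation -/
def neg (f : ZZ fam) : ZZ fam :=
  ⟨fun x => !(f.1 x), (continuous_of_discreteTopology (f := not)).comp f.2⟩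

lemma continuous_neg : Continuous (neg (fam := fam)) := by
  refine Continuous.subtype_mk ?_ _
  refine continuous_pi fun x => ?_
  exact (continuous_of_discreteTopology (f := not)).comp ((continuous_apply x).comp continuous_subtype_val)

theorem lindelofZZ (h : Fam fam) : LindelofSpace (ZZ fam) := by
  constructor
  have h1 := isLindelof_Z0 h
  have h2 := h1.image continuous_neg
  have h3 : {f : ZZ fam | f.1 (inf fam) = false} ∪ neg '' {f : ZZ fam | f.1 (inf fam) = false} =
      Set.univ := by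
    ext f
    simp only [mem_union, mem_univ, iff_true]
    by_cases hf : f.1 (inf fam) = false
    · exact Or.inl hf
    · right
      refine ⟨neg f, ?_, ?_⟩
      · rw [Bool.not_eq_false] at hf
        show (!(f.1 (inf fam))) = false
        rw [hf]
        rfl
      · apply Subtype.ext
        funext x
        show (!!(f.1 x)) = f.1 x
        exact Bool.not_not _
  rw [← h3]
  exact h1.union h2

theorem normalZZ (h : Fam fam) : NormalSpace (ZZ fam) := by
  have := lindelofZZ h
  infer_instance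

end Pool.Agent.P8H84.CpTwo
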