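import Pool.Agent.P8H84.CpTwo.Lind

/-!
# The square of the function space is not normal
-/

set_option autoImplicit false

open Set Cardinal Topology Filter

namespace Pool.Agent.P8H84.CpTwo

open Pool.Agent.Helper292.ForceCH (Om countable_Iio exists_bound ub lt_ub ub_le)

variable {fam : Om × Bool → Set M}

/-- pairs of compact open sets are not in the closed set of pairs -/
lemma not_inE {C C' : Set M} (hC : KM C) (hC' : KM C') : ¬ InE C C' := by
  rintro ⟨h0, h⟩
  obtain ⟨hc, n, hn⟩ := hC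
  obtain ⟨hc', n', hn'⟩ := hC'
  have hfin : {r : ℕ | ((r, none) : M) ∈ C ∪ C'}.Finite := by
    refine (Set.finite_Iio (max n n')).subset ?_
    rintro r (hr | hr)
    · exact (hn _ hr).trans_le (le_max_left _ _)
    · exact (hn' _ hr).trans_le (le_max_right _ _)
  obtain ⟨r, hr, hmax⟩ := hfin.exists_maximal ⟨0, h0⟩
  have key : ∃ m, ((((r, none) : M) ∈ C ∧ ((r, some m) : M) ∈ C) ∨
      (((r, none) : M) ∈ C' ∧ ((r, some m) : M) ∈ C')) := by
    rcases hr with hr | hr
    · obtain ⟨m0, hm0⟩ := hc r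
      exact ⟨m0, Or.inl ⟨hr, (hm0 m0 le_rfl).2 hr⟩⟩
    · obtain ⟨m0, hm0⟩ := hc' r
      exact ⟨m0, Or.inr ⟨hr, (hm0 m0 le_rfl).2 hr⟩⟩
  obtain ⟨m, hm⟩ := key
  obtain ⟨r', h1, -, h2⟩ := h r m hm
  exact absurd (hmax h2 h1.le) (not_le.2 h1)

/-- the set of pairs is closed -/
lemma inE_closed {C C' : Set M} (h : ¬ InE C C') : ∃ A : Finset M, ∀ a b : Set M,
    (∀ x ∈ A, (x ∈ a ↔ x ∈ C) ∧ (x ∈ b ↔ x ∈ C')) → ¬ InE a b := by
  classical
  by_cases h0 : ((0, none) : M) ∈ C ∪ C'
  · have h1 : ∃ r m, ((((r, none) : M) ∈ C ∧ ((r, some m) : M) ∈ C) ∨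
      (((r, none) : M) ∈ C' ∧ ((r, some m) : M) ∈ C')) ∧
      ∀ r', r < r' → r' ≤ m → ((r', none) : M) ∉ C ∪ C' := by
      by_contra hcon
      push Not at hcon
      exact h ⟨h0, fun r m hrm => hcon r m hrm⟩
    obtain ⟨r, m, h2, h3⟩ := h1
    refine ⟨{((r, none) : M), ((r, some m) : M)} ∪ (Finset.range (m + 1)).image
      (fun r' => ((r', none) : M)), fun a b hab hE => ?_⟩
    have e1 := hab (r, none) (by simp)
    have e2 := hab (r, some m) (by simp)
    obtain ⟨r', h4, h5, h6⟩ := hE.2 r m (by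
      rw [e1.1, e2.1, e1.2, e2.2]
      exact h2)
    have e3 := hab (r', none) (by
      simp only [Finset.mem_union, Finset.mem_image, Finset.mem_range]
      exact Or.inr ⟨r', Nat.lt_succ_of_le h5, rfl⟩)
    rw [mem_union, e3.1, e3.2] at h6
    exact h3 r' h4 h5 h6
  · refine ⟨{((0, none) : M)}, fun a b hab hE => ?_⟩
    have e1 := hab (0, none) (by simp)
    have := hE.1
    rw [mem_union, e1.1, e1.2] at this
    exact h0 this

/-- the pairs -/
noncomputable def dd (fam : Om × Bool → Set M) (α : Om) : ZZ fam × ZZ fam :=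
  (chi (AA fam (Sum.inr (Sum.inr (α, true)))), chi (AA fam (Sum.inr (Sum.inr (α, false)))))

lemma dd_fst {α : Om} {x : XX fam} :
    (dd fam α).1.1 x = true ↔ x ∈ AA fam (Sum.inr (Sum.inr (α, true))) :=
  chi_apply (isClopen_AA _) x

lemma dd_snd {α : Om} {x : XX fam} :
    (dd fam α).2.1 x = true ↔ x ∈ AA fam (Sum.inr (Sum.inr (α, false))) :=
  chi_apply (isClopen_AA _) x

lemma continuous_ev1 (x : XX fam) : Continuous fun q : ZZ fam × ZZ fam => q.1.1 x :=
  (continuous_apply x).comp (continuous_subtype_val.comp continuous_fst)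

lemma continuous_ev2 (x : XX fam) : Continuous fun q : ZZ fam × ZZ fam => q.2.1 x :=
  (continuous_apply x).comp (continuous_subtype_val.comp continuous_snd)

lemma isOpen_ev1 (x : XX fam) (b : Bool) : IsOpen {q : ZZ fam × ZZ fam | q.1.1 x = b} :=
  (isOpen_discrete {b}).preimage (continuous_ev1 x)

lemma isOpen_ev2 (x : XX fam) (b : Bool) : IsOpen {q : ZZ fam × ZZ fam | q.2.1 x = b} :=
  (isOpen_discrete {b}).preimage (continuous_ev2 x)

theorem locally_finite (h : Fam fam) (p : ZZ fam × ZZ fam) :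
    ∃ V : Set (ZZ fam × ZZ fam), IsOpen V ∧ p ∈ V ∧ {α : Om | dd fam α ∈ V}.Finite := by
  classical
  by_cases h1 : p.1.1 (inf fam) = true
  · refine ⟨_, isOpen_ev1 (inf fam) true, h1, ?_⟩
    convert Set.finite_empty
    ext α
    simp only [mem_ofPred_eq, mem_empty_iff_false, iff_false]
    rw [dd_fst]
    exact inf_mem
  by_cases h2 : p.2.1 (inf fam) = true
  · refine ⟨_, isOpen_ev2 (inf fam) true, h2, ?_⟩
    convert Set.finite_empty
    ext α
    simp only [mem_ofPred_eq, mem_empty_iff_false, iff_false]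
    rw [dd_snd]
    exact inf_mem
  obtain ⟨R, C, hC, hR⟩ := exists_SS h (isClopen_supp p.1) h1
  obtain ⟨R', C', hC', hR'⟩ := exists_SS h (isClopen_supp p.2) h2
  have e1 : ∀ x, p.1.1 x = true ↔ x ∈ SS fam R C := fun x => by rw [← hR]; exact Iff.rfl
  have e2 : ∀ x, p.2.1 x = true ↔ x ∈ SS fam R' C' := fun x => by rw [← hR']; exact Iff.rfl
  by_cases h3 : R.Nonempty
  · obtain ⟨w, hw⟩ := h3
    refine ⟨_, isOpen_ev1 (dl fam w) true, (e1 _).2 (dl_SS.2 hw), ?_⟩
    refine (Set.finite_singleton w.1).subset ?_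
    intro α hα
    have := dd_fst.1 hα
    rw [dl_fam] at this
    rw [this]
    exact Set.mem_singleton _
  by_cases h4 : R'.Nonempty
  · obtain ⟨w, hw⟩ := h4
    refine ⟨_, isOpen_ev2 (dl fam w) true, (e2 _).2 (dl_SS.2 hw), ?_⟩
    refine (Set.finite_singleton w.1).subset ?_
    intro α hα
    have := dd_snd.1 hα
    rw [dl_fam] at this
    rw [this]
    exact Set.mem_singleton _
  rw [Finset.not_nonempty_iff_eq_empty] at h3 h4
  subst h3
  subst h4
  obtain ⟨A, hA⟩ := inE_closed (not_inE hC hC')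
  have f1 : ∀ x, p.1.1 (pt fam x) = true ↔ x ∈ C := by
    intro x
    rw [e1, pt_SS]
    simp [Set.mem_symmDiff]
  have f2 : ∀ x, p.2.1 (pt fam x) = true ↔ x ∈ C' := by
    intro x
    rw [e2, pt_SS]
    simp [Set.mem_symmDiff]
  refine ⟨⋂ x ∈ A, ({q | q.1.1 (pt fam x) = p.1.1 (pt fam x)} ∩
    {q | q.2.1 (pt fam x) = p.2.1 (pt fam x)}), ?_, ?_, ?_⟩
  · exact isOpen_biInter_finset fun x _ => (isOpen_ev1 _ _).inter (isOpen_ev2 _ _)
  · simp only [mem_iInter]
    intro x _
    exact ⟨rfl, rfl⟩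
  · convert Set.finite_empty
    ext α
    simp only [mem_ofPred_eq, mem_empty_iff_false, iff_false]
    intro hα
    simp only [mem_iInter] at hα
    refine hA (fam (α, true)) (fam (α, false)) (fun x hx => ?_) (h.inE α)
    obtain ⟨g1, g2⟩ := hα x hx
    constructor
    · rw [← f1, ← (show _ = _ from g1), dd_fst, pt_fam]
    · rw [← f2, ← (show _ = _ from g2), dd_snd, pt_fam]

lemma dd_injective : Function.Injective (dd fam) := by
  intro α β hab
  have h1 : (dd fam α).1.1 (dl fam (α, true)) = true := dd_fst.2 (dl_fam.2 rfl)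
  rw [hab] at h1
  have := dl_fam.1 (dd_fst.1 h1)
  exact (Prod.mk.inj this).1

instance : T2Space (ZZ fam) := inferInstance

lemma isClosed_image (h : Fam fam) (Λ : Set Om) : IsClosed (dd fam '' Λ) := by
  have hlf : LocallyFinite (fun α : Λ => ({dd fam α.1} : Set (ZZ fam × ZZ fam))) := by
    intro p
    obtain ⟨V, hV, hp, hfin⟩ := locally_finite h p
    refine ⟨V, hV.mem_nhds hp, ?_⟩
    refine (hfin.preimage (f := fun α : Λ => α.1) Subtype.val_injective.injOn).subset ?_
    rintro α ⟨q, hq, hqV⟩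
    rw [Set.mem_singleton_iff.1 hq] at hqV
    exact hqV
  have := hlf.isClosed_iUnion fun α => isClosed_singleton
  convert this using 1
  ext q
  simp only [mem_image, mem_iUnion, Set.mem_singleton_iff, Subtype.exists, exists_prop]
  constructor
  · rintro ⟨α, hα, rfl⟩; exact ⟨α, hα, rfl⟩
  · rintro ⟨α, hα, rfl⟩; exact ⟨α, hα, rfl⟩

/-- finite conditions -/
abbrev Ty : Type := Finset M × Finset M × Finset M

/-- the index `α` satisfies the condition -/
def Match (fam : Om × Bool → Set M) (α : Om) (t : Ty) : Prop :=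
  ∀ x ∈ t.1, (x ∈ fam (α, true) ↔ x ∈ t.2.1) ∧ (x ∈ fam (α, false) ↔ x ∈ t.2.2)

/-- the indices which satisfy one of the conditions -/
def GG (fam : Om × Bool → Set M) (T : Set Ty) : Set Om := {α | ∃ t ∈ T, Match fam α t}

lemma exists_finset_nhd2 {V : Set (ZZ fam × ZZ fam)} (hV : IsOpen V) {p : ZZ fam × ZZ fam}
    (hp : p ∈ V) : ∃ P : Finset (XX fam), ∀ q : ZZ fam × ZZ fam,
      (∀ x ∈ P, q.1.1 x = p.1.1 x ∧ q.2.1 x = p.2.1 x) → q ∈ V := by
  classical
  obtain ⟨U1, hU1, U2, hU2, h1, h2, hsub⟩ : ∃ U1, IsOpen U1 ∧ ∃ U2, IsOpen U2 ∧ p.1 ∈ U1 ∧ p.2 ∈ U2 ∧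
      U1 ×ˢ U2 ⊆ V := by
    obtain ⟨U1, U2, hU1, hU2, h1, h2, hsub⟩ := isOpen_prod_iff.1 hV p.1 p.2 hp
    exact ⟨U1, hU1, U2, hU2, h1, h2, hsub⟩
  obtain ⟨P1, hP1⟩ := exists_finset_nhd hU1 h1
  obtain ⟨P2, hP2⟩ := exists_finset_nhd hU2 h2
  refine ⟨P1 ∪ P2, fun q hq => hsub ⟨hP1 _ fun x hx => ?_, hP2 _ fun x hx => ?_⟩⟩
  · exact (hq x (Finset.mem_union_left _ hx)).1
  · exact (hq x (Finset.mem_union_right _ hx)).2

theorem exists_types (h : Fam fam) [NormalSpace (ZZ fam × ZZ fam)] (Λ : Set Om) :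
    ∃ T : Set Ty, (symmDiff Λ (GG fam T)).Countable := by
  classical
  have hdisj : Disjoint (dd fam '' Λ) (dd fam '' Λᶜ) :=
    Set.disjoint_image_of_injective dd_injective disjoint_compl_right
  obtain ⟨U, V, hU, hV, hΛU, hΛV, hUV⟩ :=
    NormalSpace.normal _ _ (isClosed_image h Λ) (isClosed_image h Λᶜ) hdisj
  have hP : ∀ α : Om, ∃ P : Finset (XX fam), ∀ q : ZZ fam × ZZ fam,
      (∀ x ∈ P, q.1.1 x = (dd fam α).1.1 x ∧ q.2.1 x = (dd fam α).2.1 x) →
      (α ∈ Λ → q ∈ U) ∧ (α ∉ Λ → q ∈ V) := by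
    intro α
    by_cases hα : α ∈ Λ
    · obtain ⟨P, hP⟩ := exists_finset_nhd2 hU (hΛU ⟨α, hα, rfl⟩)
      exact ⟨P, fun q hq => ⟨fun _ => hP q hq, fun h => absurd hα h⟩⟩
    · obtain ⟨P, hP⟩ := exists_finset_nhd2 hV (hΛV ⟨α, hα, rfl⟩)
      exact ⟨P, fun q hq => ⟨fun h => absurd h hα, fun _ => hP q hq⟩⟩
  choose P hP using hP
  have hptinj : Function.Injective (pt fam) := fun x y h => pt_inj h
  let A : Om → Finset M := fun α => (P α).preimage (pt fam) hptinj.injOn
  have hA : ∀ α x, x ∈ A α ↔ pt fam x ∈ P α := fun α x => Finset.mem_preimage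
  let τ : Om → Ty := fun α => (A α, (A α).filter (fun x => x ∈ fam (α, true)),
    (A α).filter (fun x => x ∈ fam (α, false)))
  have hτ : ∀ α, Match fam α (τ α) := by
    intro α x hx
    simp only [τ, Finset.mem_filter]
    exact ⟨⟨fun h => ⟨hx, h⟩, fun h => h.2⟩, ⟨fun h => ⟨hx, h⟩, fun h => h.2⟩⟩
  let B : Om → Set Om := fun α => {β | dl fam (β, true) ∈ P α ∨ dl fam (β, false) ∈ P α}
  have hB : ∀ α, (B α).Finite := by
    intro α
    have h1 : {β : Om | dl fam (β, true) ∈ P α}.Finite :=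
      (Finset.finite_toSet (P α)).preimage (f := fun β : Om => dl fam (β, true))
        (Function.Injective.injOn fun x y h => (Prod.mk.inj (dl_inj h)).1)
    have h2 : {β : Om | dl fam (β, false) ∈ P α}.Finite :=
      (Finset.finite_toSet (P α)).preimage (f := fun β : Om => dl fam (β, false))
        (Function.Injective.injOn fun x y h => (Prod.mk.inj (dl_inj h)).1)
    exact h1.union h2
  let T : Set Ty := {t | {α | α ∈ Λ ∧ τ α = t}.Infinite}
  refine ⟨T, ?_⟩
  have c1 : (Λ \ GG fam T).Countable := by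
    have : Λ \ GG fam T ⊆ ⋃ t ∈ Tᶜ, {α | α ∈ Λ ∧ τ α = t} := by
      rintro α ⟨hα, hG⟩
      refine mem_iUnion₂.2 ⟨τ α, fun ht => hG ⟨τ α, ht, hτ α⟩, hα, rfl⟩
    refine Set.Countable.mono this (Set.Countable.biUnion (Set.to_countable _) ?_)
    intro t ht
    exact (Set.not_infinite.1 ht).countable
  have hemb : ∀ t : Ty, ∃ e : ℕ → Om, t ∈ T → Function.Injective e ∧ ∀ n, e n ∈ Λ ∧ τ (e n) = t := by
    intro t
    by_cases ht : t ∈ T
    · have hinf : {α | α ∈ Λ ∧ τ α = t}.Infinite := ht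
      let e := hinf.natEmbedding
      exact ⟨fun n => (e n).1, fun _ => ⟨fun a b hab => e.injective (Subtype.ext hab),
        fun n => (e n).2⟩⟩
    · exact ⟨fun _ => Classical.arbitrary Om, fun h => absurd h ht⟩
  choose e he using hemb
  have c2 : (GG fam T \ Λ).Countable := by
    have : GG fam T \ Λ ⊆ ⋃ t : Ty, ⋃ n : ℕ, B (e t n) := by
      rintro β ⟨⟨t, ht, hm⟩, hβ⟩
      obtain ⟨n, hn⟩ : ∃ n, e t n ∉ B β := by
        by_contra hcon
        push Not at hcon
        have : (range (e t)).Finite := (hB β).subset (by rintro _ ⟨n, rfl⟩; exact hcon n)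
        exact Set.infinite_range_of_injective (he t ht).1 this
      refine mem_iUnion₂.2 ⟨t, n, ?_⟩
      by_contra hβB
      set α := e t n with hα
      obtain ⟨hαΛ, hατ⟩ := (he t ht).2 n
      -- the common point
      have hcons : ∀ b : Bool, ∀ x ∈ P α, x ∈ P β →
          (x ∈ AA fam (Sum.inr (Sum.inr (α, b))) ↔ x ∈ AA fam (Sum.inr (Sum.inr (β, b)))) := by
        intro b x hxα hxβ
        rcases cases_XX x with ⟨y, rfl⟩ | ⟨w, rfl⟩ | rfl
        · rw [pt_fam, pt_fam]
          have hy : y ∈ t.1 := by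
            rw [← hατ]
            exact (hA α y).2 hxα
          have h1 := hτ α y ((hA α y).2 hxα)
          have h2 := hm y hy
          have hατ' : τ α = t := hατ
          rw [hατ'] at h1
          cases b
          · rw [h1.2, h2.2]
          · rw [h1.1, h2.1]
        · rw [dl_fam, dl_fam]
          constructor
          · rintro rfl
            exfalso
            apply hn
            cases b
            · exact Or.inr hxβ
            · exact Or.inl hxβ
          · rintro rfl
            exfalso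
            apply hβB
            cases b
            · exact Or.inr hxα
            · exact Or.inl hxα
        · exact ⟨fun h => absurd h inf_mem, fun h => absurd h inf_mem⟩
      have hcom : ∀ b : Bool, ∃ g : ZZ fam,
          (∀ x ∈ P α, g.1 x = true ↔ x ∈ AA fam (Sum.inr (Sum.inr (α, b)))) ∧
          (∀ x ∈ P β, g.1 x = true ↔ x ∈ AA fam (Sum.inr (Sum.inr (β, b)))) := by
        intro b
        obtain ⟨S, hS, hSx⟩ := exists_interp (P α ∪ P β)
          ((P α).filter (fun x => x ∈ AA fam (Sum.inr (Sum.inr (α, b)))) ∪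
            (P β).filter (fun x => x ∈ AA fam (Sum.inr (Sum.inr (β, b)))))
        refine ⟨chi S, fun x hx => ?_, fun x hx => ?_⟩
        · rw [chi_apply hS, hSx x (Finset.mem_union_left _ hx)]
          simp only [Finset.mem_union, Finset.mem_filter]
          constructor
          · rintro (⟨-, h'⟩ | ⟨h', h''⟩)
            · exact h'
            · exact (hcons b x hx h').2 h''
          · intro h'
            exact Or.inl ⟨hx, h'⟩
        · rw [chi_apply hS, hSx x (Finset.mem_union_right _ hx)]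
          simp only [Finset.mem_union, Finset.mem_filter]
          constructor
          · rintro (⟨h', h''⟩ | ⟨-, h'⟩)
            · exact (hcons b x h' hx).1 h''
            · exact h'
          · intro h'
            exact Or.inr ⟨hx, h'⟩
      obtain ⟨g1, hg1, hg1'⟩ := hcom true
      obtain ⟨g2, hg2, hg2'⟩ := hcom false
      have hU' : ((g1, g2) : ZZ fam × ZZ fam) ∈ U := by
        refine (hP α (g1, g2) fun x hx => ⟨?_, ?_⟩).1 hαΛ
        · rw [Bool.eq_iff_iff, dd_fst]
          exact hg1 x hx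
        · rw [Bool.eq_iff_iff, dd_snd]
          exact hg2 x hx
      have hV' : ((g1, g2) : ZZ fam × ZZ fam) ∈ V := by
        refine (hP β (g1, g2) fun x hx => ⟨?_, ?_⟩).2 hβ
        · rw [Bool.eq_iff_iff, dd_fst]
          exact hg1' x hx
        · rw [Bool.eq_iff_iff, dd_snd]
          exact hg2' x hx
      exact Set.disjoint_left.1 hUV hU' hV'
    exact Set.Countable.mono this (Set.countable_iUnion fun t => Set.countable_iUnion fun n =>
      (hB _).countable)
  exact c1.union c2

/-- **The square is not normal.** -/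
theorem not_normal (hCH : Cardinal.aleph 1 = Cardinal.continuum.{0}) (h : Fam fam) :
    ¬ NormalSpace (ZZ fam × ZZ fam) := by
  intro hnormal
  let Φ : Set Ty × (ℕ → Option Om) → Set Om := fun q =>
    symmDiff (GG fam q.1) {β | some β ∈ range q.2}
  have hΦ : Function.Surjective Φ := by
    intro Λ
    obtain ⟨T, hT⟩ := exists_types h Λ
    obtain ⟨e, he⟩ : ∃ e : ℕ → Option Om, {β | some β ∈ range e} = symmDiff Λ (GG fam T) := by
      rcases (symmDiff Λ (GG fam T)).eq_empty_or_nonempty with h0 | h0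
      · refine ⟨fun _ => none, ?_⟩
        rw [h0]
        ext β
        simp
      · obtain ⟨f, hf⟩ := hT.exists_eq_range h0
        refine ⟨fun n => some (f n), ?_⟩
        rw [hf]
        ext β
        simp
    refine ⟨(T, e), ?_⟩
    show symmDiff (GG fam T) {β | some β ∈ range e} = Λ
    rw [he, symmDiff_comm Λ, symmDiff_symmDiff_cancel_left]
  have h1 := Cardinal.mk_le_of_surjective hΦ
  have hOm : #Om = Cardinal.continuum := by
    rw [← hCH]
    simp [Om]
  have h2 : #(Set Ty × (ℕ → Option Om)) = Cardinal.continuum := by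
    have e1 : #(Set Ty) = Cardinal.continuum := by
      rw [Cardinal.mk_set, Cardinal.mk_eq_aleph0 Ty, Cardinal.two_power_aleph0]
    have e2 : #(ℕ → Option Om) = Cardinal.continuum := by
      rw [← Cardinal.power_def, Cardinal.mk_option, hOm, Cardinal.mk_nat]
      have : Cardinal.continuum.{0} + 1 = Cardinal.continuum :=
        Cardinal.add_one_eq Cardinal.aleph0_le_continuum
      rw [this, Cardinal.continuum_power_aleph0]
    rw [Cardinal.mk_prod, Cardinal.lift_id, Cardinal.lift_id, e1, e2,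
      Cardinal.continuum_mul_self]
  rw [h2, Cardinal.mk_set, hOm] at h1
  exact absurd h1 (not_le.2 (Cardinal.cantor _))

end Pool.Agent.P8H84.CpTwo
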