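import Pool.Agent.P8H84.CpTwo.Comb

/-!
# The compact space
-/

set_option autoImplicit false

open Set Cardinal Topology Filter

namespace Pool.Agent.P8H84.CpTwo

open Pool.Agent.Helper292.ForceCH (Om countable_Iio exists_bound ub lt_ub ub_le)

/-- the underlying set: `M`, the points `δ w`, and the point `∞` -/
def XX (_fam : Om × Bool → Set M) : Type := Option (M ⊕ (Om × Bool))

/-- the index set of the coordinates -/
abbrev Idx : Type := ℕ ⊕ (ℕ × ℕ) ⊕ (Om × Bool)

variable {fam : Om × Bool → Set M}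

/-- points of `M` -/
def pt (fam : Om × Bool → Set M) (x : M) : XX fam := some (Sum.inl x)

/-- the points `δ w` -/
def dl (fam : Om × Bool → Set M) (w : Om × Bool) : XX fam := some (Sum.inr w)

/-- the point `∞` -/
def inf (fam : Om × Bool → Set M) : XX fam := none

lemma cases_XX (x : XX fam) : (∃ y, x = pt fam y) ∨ (∃ w, x = dl fam w) ∨ x = inf fam := by
  rcases x with _ | (y | w)
  · exact Or.inr (Or.inr rfl)
  · exact Or.inl ⟨y, rfl⟩
  · exact Or.inr (Or.inl ⟨w, rfl⟩)

lemma pt_inj {x y : M} (h : pt fam x = pt fam y) : x = y := by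
  have := Option.some_injective _ h
  exact Sum.inl_injective this

lemma dl_inj {x y : Om × Bool} (h : dl fam x = dl fam y) : x = y := by
  have := Option.some_injective _ h
  exact Sum.inr_injective this

lemma pt_ne_dl {x : M} {w : Om × Bool} : pt fam x ≠ dl fam w := by
  intro h
  have := Option.some_injective _ h
  cases this

lemma pt_ne_inf {x : M} : pt fam x ≠ inf fam := by
  intro h
  cases h

lemma dl_ne_inf {w : Om × Bool} : dl fam w ≠ inf fam := by
  intro h
  cases h

/-- the basic sets -/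
def AA (fam : Om × Bool → Set M) : Idx → Set (XX fam)
  | Sum.inl r => {x | ∃ o, x = pt fam (r, o)}
  | Sum.inr (Sum.inl q) => {pt fam (q.1, some q.2)}
  | Sum.inr (Sum.inr w) => insert (dl fam w) (pt fam '' fam w)

open Classical in
/-- the embedding -/
noncomputable def emb (fam : Om × Bool → Set M) (x : XX fam) (i : Idx) : Bool := decide (x ∈ AA fam i)

lemma emb_true {x : XX fam} {i : Idx} : emb fam x i = true ↔ x ∈ AA fam i := by
  simp [emb]

lemma emb_eq_iff {x y : XX fam} {i : Idx} : emb fam x i = emb fam y i ↔ (x ∈ AA fam i ↔ y ∈ AA fam i) := by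
  rw [Bool.eq_iff_iff, emb_true, emb_true]

lemma pt_row {x : M} {r : ℕ} : pt fam x ∈ AA fam (Sum.inl r) ↔ x.1 = r := by
  constructor
  · rintro ⟨o, h⟩
    rw [pt_inj h]
  · rintro h
    exact ⟨x.2, by rw [← h]⟩

lemma dl_row {w : Om × Bool} {r : ℕ} : dl fam w ∉ AA fam (Sum.inl r) := by
  rintro ⟨o, h⟩
  exact pt_ne_dl h.symm

lemma inf_mem {i : Idx} : inf fam ∉ AA fam i := by
  rcases i with r | q | w
  · rintro ⟨o, h⟩
    exact pt_ne_inf h.symm
  · intro h
    exact pt_ne_inf (Set.mem_singleton_iff.1 h).symm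
  · rintro (h | ⟨y, -, h⟩)
    · exact dl_ne_inf h.symm
    · exact pt_ne_inf h

lemma pt_sing {x : M} {q : ℕ × ℕ} : pt fam x ∈ AA fam (Sum.inr (Sum.inl q)) ↔ x = (q.1, some q.2) := by
  constructor
  · intro h
    exact pt_inj (Set.mem_singleton_iff.1 h)
  · rintro rfl
    exact Set.mem_singleton _

lemma dl_sing {w : Om × Bool} {q : ℕ × ℕ} : dl fam w ∉ AA fam (Sum.inr (Sum.inl q)) := by
  intro h
  exact pt_ne_dl (Set.mem_singleton_iff.1 h).symm

lemma pt_fam {x : M} {w : Om × Bool} : pt fam x ∈ AA fam (Sum.inr (Sum.inr w)) ↔ x ∈ fam w := by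
  constructor
  · rintro (h | ⟨y, hy, h⟩)
    · exact absurd h pt_ne_dl
    · rw [← pt_inj h]; exact hy
  · intro h
    exact Or.inr ⟨x, h, rfl⟩

lemma dl_fam {v w : Om × Bool} : dl fam v ∈ AA fam (Sum.inr (Sum.inr w)) ↔ v = w := by
  constructor
  · rintro (h | ⟨y, hy, h⟩)
    · exact dl_inj h
    · exact absurd h pt_ne_dl
  · rintro rfl
    exact Or.inl rfl

theorem emb_injective : Function.Injective (emb fam) := by
  intro x y h
  have h' : ∀ i, (x ∈ AA fam i ↔ y ∈ AA fam i) := fun i => emb_eq_iff.1 (congrFun h i)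
  rcases cases_XX x with ⟨a, rfl⟩ | ⟨a, rfl⟩ | rfl
  · rcases cases_XX y with ⟨b, rfl⟩ | ⟨b, rfl⟩ | rfl
    · have h1 := h' (Sum.inl a.1)
      rw [pt_row, pt_row] at h1
      have h1' := h1.1 rfl
      rcases a with ⟨r, _ | m⟩
      · rcases b with ⟨r', _ | m'⟩
        · dsimp only at h1'; rw [h1']
        · have := h' (Sum.inr (Sum.inl (r', m')))
          rw [pt_sing, pt_sing] at this
          rw [this.2 rfl]
      · have := h' (Sum.inr (Sum.inl (r, m)))
        rw [pt_sing, pt_sing] at this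
        rw [this.1 rfl]
    · have h1 := h' (Sum.inl a.1)
      rw [pt_row] at h1
      exact absurd (h1.1 rfl) dl_row
    · have h1 := h' (Sum.inl a.1)
      rw [pt_row] at h1
      exact absurd (h1.1 rfl) inf_mem
  · rcases cases_XX y with ⟨b, rfl⟩ | ⟨b, rfl⟩ | rfl
    · have h1 := h' (Sum.inl b.1)
      rw [pt_row] at h1
      exact absurd (h1.2 rfl) dl_row
    · have h1 := h' (Sum.inr (Sum.inr a))
      rw [dl_fam, dl_fam] at h1
      rw [h1.1 rfl]
    · have h1 := h' (Sum.inr (Sum.inr a))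
      rw [dl_fam] at h1
      exact absurd (h1.1 rfl) inf_mem
  · rcases cases_XX y with ⟨b, rfl⟩ | ⟨b, rfl⟩ | rfl
    · have h1 := h' (Sum.inl b.1)
      rw [pt_row] at h1
      exact absurd (h1.2 rfl) inf_mem
    · have h1 := h' (Sum.inr (Sum.inr b))
      rw [dl_fam] at h1
      exact absurd (h1.2 rfl) inf_mem
    · rfl

/-- the topology induced by the coordinates -/
noncomputable instance topXX : TopologicalSpace (XX fam) := TopologicalSpace.induced (emb fam) inferInstance

theorem isEmbedding_emb : IsEmbedding (emb fam) := ⟨⟨rfl⟩, emb_injective⟩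

instance : T2Space (XX fam) := isEmbedding_emb.t2Space

lemma continuous_coord (i : Idx) : Continuous fun x => emb fam x i :=
  (continuous_apply i).comp isEmbedding_emb.continuous

lemma isClopen_AA (i : Idx) : IsClopen (AA fam i) := by
  have : AA fam i = (fun x => emb fam x i) ⁻¹' {true} := by
    ext x
    simp [emb_true]
  rw [this]
  exact (isClopen_discrete _).preimage (continuous_coord i)

lemma tendsto_emb {ι : Type*} {l : Filter ι} {f : ι → XX fam} {x : XX fam} :
    Tendsto f l (𝓝 x) ↔ ∀ i, ∀ᶠ t in l, (f t ∈ AA fam i ↔ x ∈ AA fam i) := by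
  rw [isEmbedding_emb.tendsto_nhds_iff, tendsto_pi_nhds]
  refine forall_congr' fun i => ?_
  rw [nhds_discrete, tendsto_pure]
  refine eventually_congr (Eventually.of_forall fun t => ?_)
  exact emb_eq_iff

lemma clo_coord (h : Fam fam) (r : ℕ) (i : Idx) :
    ∃ m0, ∀ m, m0 ≤ m → (pt fam (r, some m) ∈ AA fam i ↔ pt fam (r, none) ∈ AA fam i) := by
  rcases i with r' | q | w
  · exact ⟨0, fun m _ => by rw [pt_row, pt_row]⟩
  · refine ⟨q.2 + 1, fun m hm => ?_⟩
    rw [pt_sing, pt_sing]
    constructor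
    · intro e
      have := (Prod.mk.inj e).2
      have := Option.some_injective _ this
      omega
    · intro e
      have := (Prod.mk.inj e).2
      exact absurd this.symm (Option.some_ne_none _)
  · obtain ⟨m0, hm0⟩ := h.clo w r
    refine ⟨m0, fun m hm => ?_⟩
    rw [pt_fam, pt_fam]
    exact hm0 m hm

lemma tendsto_row (h : Fam fam) (r : ℕ) :
    Tendsto (fun m => pt fam (r, some m)) atTop (𝓝 (pt fam (r, none))) := by
  rw [tendsto_emb]
  intro i
  obtain ⟨m0, hm0⟩ := clo_coord h r i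
  exact eventually_atTop.2 ⟨m0, hm0⟩

theorem isClosed_range (h : Fam fam) : IsClosed (range (emb fam)) := by
  classical
  rw [← closure_subset_iff_isClosed]
  intro z hz
  have key : ∀ F : Finset Idx, ∃ x : XX fam, ∀ i ∈ F, (x ∈ AA fam i ↔ z i = true) := by
    intro F
    have hU : IsOpen {y : Idx → Bool | ∀ i ∈ F, y i = z i} := by
      have : {y : Idx → Bool | ∀ i ∈ F, y i = z i} = ⋂ i ∈ F, (fun y : Idx → Bool => y i) ⁻¹' {z i} := by
        ext y
        simp
      rw [this]
      exact isOpen_biInter_finset fun i _ => (isOpen_discrete _).preimage (continuous_apply i)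
    obtain ⟨y, hy, ⟨x, rfl⟩⟩ := mem_closure_iff.1 hz _ hU (fun i _ => rfl)
    refine ⟨x, fun i hi => ?_⟩
    rw [← emb_true, hy i hi]
  have hfin : ∀ x : XX fam, (∀ i, (x ∈ AA fam i ↔ z i = true)) → z ∈ range (emb fam) := by
    intro x hx
    refine ⟨x, ?_⟩
    funext i
    rw [Bool.eq_iff_iff, emb_true]
    exact hx i
  by_cases h1 : ∃ r, z (Sum.inl r) = true
  · obtain ⟨r, hr⟩ := h1
    by_cases h2 : ∃ m, z (Sum.inr (Sum.inl (r, m))) = true
    · obtain ⟨m, hm⟩ := h2
      refine hfin (pt fam (r, some m)) fun i => ?_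
      obtain ⟨x, hx⟩ := key {Sum.inr (Sum.inl (r, m)), i}
      have e1 := (hx (Sum.inr (Sum.inl (r, m))) (by simp)).2 hm
      rw [← hx i (by simp), Set.mem_singleton_iff.1 e1]
    · push Not at h2
      refine hfin (pt fam (r, none)) fun i => ?_
      obtain ⟨m0, hm0⟩ := clo_coord h r i
      obtain ⟨x, hx⟩ := key (insert (Sum.inl r) (insert i ((Finset.range m0).image
        fun m => Sum.inr (Sum.inl (r, m)))))
      obtain ⟨o, ho⟩ := (hx (Sum.inl r) (by simp)).2 hr
      have e2 := hx i (by simp)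
      rcases o with _ | m
      · rw [← e2, ho]
      · have e3 : m0 ≤ m := by
          by_contra hlt
          have e4 := (hx (Sum.inr (Sum.inl (r, m))) (by
            simp only [Finset.mem_insert, Finset.mem_image, Finset.mem_range]
            exact Or.inr (Or.inr ⟨m, not_le.1 hlt, rfl⟩))).1 (by
            rw [ho, pt_sing])
          exact h2 m e4
        rw [← e2, ho, hm0 m e3]
  · push Not at h1
    have h2 : ∀ q, z (Sum.inr (Sum.inl q)) ≠ true := by
      intro q hq
      obtain ⟨x, hx⟩ := key {Sum.inl q.1, Sum.inr (Sum.inl q)}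
      have e1 := (hx (Sum.inr (Sum.inl q)) (by simp)).2 hq
      have e2 := (hx (Sum.inl q.1) (by simp)).1 (by
        rw [Set.mem_singleton_iff.1 e1, pt_row])
      exact h1 _ e2
    by_cases h3 : ∃ w, z (Sum.inr (Sum.inr w)) = true
    · obtain ⟨w, hw⟩ := h3
      refine hfin (dl fam w) fun i => ?_
      rcases i with r | q | v
      · exact ⟨fun h' => absurd h' dl_row, fun h' => absurd h' (h1 r)⟩
      · exact ⟨fun h' => absurd h' dl_sing, fun h' => absurd h' (h2 q)⟩
      · rw [dl_fam]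
        constructor
        · rintro rfl; exact hw
        · intro hv
          by_contra hne
          obtain ⟨n, hn⟩ := h.ad w v hne
          obtain ⟨x, hx⟩ := key (insert (Sum.inr (Sum.inr w)) (insert (Sum.inr (Sum.inr v))
            ((Finset.range n).image Sum.inl)))
          have e1 := (hx (Sum.inr (Sum.inr w)) (by simp)).2 hw
          have e2 := (hx (Sum.inr (Sum.inr v)) (by simp)).2 hv
          rcases cases_XX x with ⟨y, rfl⟩ | ⟨u, rfl⟩ | rfl
          · rw [pt_fam] at e1 e2
            have e3 := hn y ⟨e1, e2⟩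
            have e4 := (hx (Sum.inl y.1) (by
              simp only [Finset.mem_insert, Finset.mem_image, Finset.mem_range]
              exact Or.inr (Or.inr ⟨y.1, e3, rfl⟩))).1 (by rw [pt_row])
            exact h1 _ e4
          · rw [dl_fam] at e1 e2
            exact hne (e1.symm.trans e2)
          · exact inf_mem e1
    · push Not at h3
      refine hfin (inf fam) fun i => ?_
      rcases i with r | q | v
      · exact ⟨fun h' => absurd h' inf_mem, fun h' => absurd h' (h1 r)⟩
      · exact ⟨fun h' => absurd h' inf_mem, fun h' => absurd h' (h2 q)⟩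
      · exact ⟨fun h' => absurd h' inf_mem, fun h' => absurd h' (h3 v)⟩

theorem compactXX (h : Fam fam) : CompactSpace (XX fam) :=
  (IsClosedEmbedding.mk isEmbedding_emb (isClosed_range h)).compactSpace

theorem totallyDisconnectedXX : TotallyDisconnectedSpace (XX fam) := by
  constructor
  apply isTotallyDisconnected_of_image isEmbedding_emb.continuous.continuousOn emb_injective
  exact isTotallyDisconnected_of_totallyDisconnectedSpace _

/-- The clopen sets given by compact open subsets of `M`. -/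
lemma isClopen_KM {C : Set M} (hC : KM C) : IsClopen (pt fam '' C) := by
  classical
  obtain ⟨hC, n, hn⟩ := hC
  have h1 : pt fam '' C = ⋃ r ∈ Finset.range n, (pt fam '' {x | x ∈ C ∧ x.1 = r}) := by
    ext y
    simp only [mem_image, mem_iUnion, Finset.mem_range, exists_prop]
    constructor
    · rintro ⟨x, hx, rfl⟩
      exact ⟨x.1, hn x hx, x, ⟨hx, rfl⟩, rfl⟩
    · rintro ⟨r, -, x, ⟨hx, -⟩, rfl⟩
      exact ⟨x, hx, rfl⟩
  rw [h1]
  refine isClopen_biUnion_finset fun r _ => ?_
  obtain ⟨m0, hm0⟩ := hC r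
  by_cases hr : ((r, none) : M) ∈ C
  · have : pt fam '' {x | x ∈ C ∧ x.1 = r} = AA fam (Sum.inl r) \
        ⋃ m ∈ (Finset.range m0).filter (fun m => ((r, some m) : M) ∉ C),
          AA fam (Sum.inr (Sum.inl (r, m))) := by
      ext y
      simp only [mem_image, Set.mem_sdiff, mem_iUnion, Finset.mem_filter, Finset.mem_range,
        exists_prop, not_exists, not_and]
      constructor
      · rintro ⟨x, ⟨hx, hxr⟩, rfl⟩
        refine ⟨pt_row.2 hxr, ?_⟩
        rintro m ⟨-, hm⟩ h2
        rw [pt_sing] at h2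
        rw [h2] at hx
        exact hm hx
      · rintro ⟨⟨o, rfl⟩, h2⟩
        refine ⟨(r, o), ⟨?_, rfl⟩, rfl⟩
        rcases o with _ | m
        · exact hr
        · by_cases hm : m0 ≤ m
          · exact (hm0 m hm).2 hr
          · by_contra hc
            exact h2 m ⟨not_le.1 hm, hc⟩ (pt_sing.2 rfl)
    rw [this]
    exact (isClopen_AA _).diff (isClopen_biUnion_finset fun m _ => isClopen_AA _)
  · have : pt fam '' {x | x ∈ C ∧ x.1 = r} =
        ⋃ m ∈ (Finset.range m0).filter (fun m => ((r, some m) : M) ∈ C),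
          AA fam (Sum.inr (Sum.inl (r, m))) := by
      ext y
      simp only [mem_image, mem_iUnion, Finset.mem_filter, Finset.mem_range,
        exists_prop]
      constructor
      · rintro ⟨⟨r', o⟩, ⟨hx, hxr⟩, rfl⟩
        have hxr' : r' = r := hxr
        subst hxr'
        rcases o with _ | m
        · exact absurd hx hr
        · refine ⟨m, ⟨?_, hx⟩, pt_sing.2 rfl⟩
          by_contra hm
          exact hr ((hm0 m (not_lt.1 hm)).1 hx)
      · rintro ⟨m, ⟨-, hm⟩, h2⟩
        exact ⟨(r, some m), ⟨hm, rfl⟩, (Set.mem_singleton_iff.1 h2).symm⟩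
    rw [this]
    exact isClopen_biUnion_finset fun m _ => isClopen_AA _

/-- clopen sets are traced by clopen subsets of `M` -/
lemma clo_of_isClopen (h : Fam fam) {T : Set (XX fam)} (hT : IsClopen T) : Clo (pt fam ⁻¹' T) := by
  intro r
  by_cases hr : pt fam (r, none) ∈ T
  · have := (tendsto_row h r).eventually (hT.2.mem_nhds hr)
    obtain ⟨m0, hm0⟩ := eventually_atTop.1 this
    exact ⟨m0, fun m hm => ⟨fun _ => hr, fun _ => hm0 m hm⟩⟩
  · have := (tendsto_row h r).eventually (hT.compl.2.mem_nhds hr)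
    obtain ⟨m0, hm0⟩ := eventually_atTop.1 this
    exact ⟨m0, fun m hm => ⟨fun h' => absurd h' (hm0 m hm), fun h' => absurd h' hr⟩⟩

/-- the clopen sets which do not contain `∞` -/
def SS (fam : Om × Bool → Set M) (R : Finset (Om × Bool)) (C : Set M) : Set (XX fam) :=
  symmDiff (⋃ w ∈ R, AA fam (Sum.inr (Sum.inr w))) (pt fam '' C)

lemma isClopen_SS (R : Finset (Om × Bool)) {C : Set M} (hC : KM C) : IsClopen (SS fam R C) := by
  have h1 : IsClopen (⋃ w ∈ R, AA fam (Sum.inr (Sum.inr w))) :=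
    isClopen_biUnion_finset fun w _ => isClopen_AA _
  have h2 := isClopen_KM (fam := fam) hC
  exact (h1.diff h2).union (h2.diff h1)

lemma pt_SS {R : Finset (Om × Bool)} {C : Set M} {x : M} :
    pt fam x ∈ SS fam R C ↔ x ∈ symmDiff (⋃ w ∈ R, fam w) C := by
  have h1 : pt fam x ∈ (⋃ w ∈ R, AA fam (Sum.inr (Sum.inr w))) ↔ x ∈ ⋃ w ∈ R, fam w := by
    simp only [mem_iUnion, pt_fam]
  have h2 : pt fam x ∈ pt fam '' C ↔ x ∈ C := by
    constructor
    · rintro ⟨y, hy, h⟩
      rw [← pt_inj h]; exact hy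
    · intro hx
      exact ⟨x, hx, rfl⟩
  simp only [SS, Set.mem_symmDiff, h1, h2]

lemma dl_SS {R : Finset (Om × Bool)} {C : Set M} {v : Om × Bool} :
    dl fam v ∈ SS fam R C ↔ v ∈ R := by
  have h1 : dl fam v ∈ (⋃ w ∈ R, AA fam (Sum.inr (Sum.inr w))) ↔ v ∈ R := by
    simp only [mem_iUnion, dl_fam]
    constructor
    · rintro ⟨w, hw, rfl⟩; exact hw
    · intro hv; exact ⟨v, hv, rfl⟩
  have h2 : dl fam v ∉ pt fam '' C := by
    rintro ⟨y, -, h⟩
    exact pt_ne_dl h
  simp only [SS, Set.mem_symmDiff, h1, h2]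
  tauto

lemma inf_SS {R : Finset (Om × Bool)} {C : Set M} : inf fam ∉ SS fam R C := by
  have h1 : inf fam ∉ (⋃ w ∈ R, AA fam (Sum.inr (Sum.inr w))) := by
    simp only [mem_iUnion, not_exists]
    intro w _
    exact inf_mem
  have h2 : inf fam ∉ pt fam '' C := by
    rintro ⟨y, -, h⟩
    exact pt_ne_inf h
  simp only [SS, Set.mem_symmDiff]
  tauto

/-- **The clopen algebra.** -/
theorem exists_SS (h : Fam fam) {T : Set (XX fam)} (hT : IsClopen T) (hinf : inf fam ∉ T) :
    ∃ R C, KM C ∧ T = SS fam R C := by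
  classical
  have := compactXX h
  have hTc : IsCompact T := hT.1.isCompact
  have hcov : T ⊆ ⋃ i : Idx, AA fam i := by
    intro x hx
    rcases cases_XX x with ⟨y, rfl⟩ | ⟨w, rfl⟩ | rfl
    · exact mem_iUnion.2 ⟨Sum.inl y.1, pt_row.2 rfl⟩
    · exact mem_iUnion.2 ⟨Sum.inr (Sum.inr w), dl_fam.2 rfl⟩
    · exact absurd hx hinf
  obtain ⟨t, ht⟩ := hTc.elim_finite_subcover _ (fun i => (isClopen_AA (fam := fam) i).2) hcov
  have hR0 : {w : Om × Bool | dl fam w ∈ T}.Finite := by
    refine Set.Finite.subset ((Finset.finite_toSet t).preimage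
      (f := fun w : Om × Bool => (Sum.inr (Sum.inr w) : Idx)) ?_) ?_
    · intro a _ b _ hab
      exact Sum.inr_injective (Sum.inr_injective hab)
    · intro w hw
      obtain ⟨i, hi, hx⟩ := mem_iUnion₂.1 (ht hw)
      rcases i with r | q | v
      · exact absurd hx dl_row
      · exact absurd hx dl_sing
      · rw [dl_fam] at hx
        subst hx
        exact hi
  let R : Finset (Om × Bool) := hR0.toFinset
  have hR : ∀ w, w ∈ R ↔ dl fam w ∈ T := fun w => by simp [R]
  let T' : Set (XX fam) := symmDiff T (⋃ w ∈ R, AA fam (Sum.inr (Sum.inr w)))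
  have h1 : IsClopen (⋃ w ∈ R, AA fam (Sum.inr (Sum.inr w))) :=
    isClopen_biUnion_finset fun w _ => isClopen_AA _
  have hT' : IsClopen T' := (hT.diff h1).union (h1.diff hT)
  have hdl : ∀ w, dl fam w ∉ T' := by
    intro w
    have e1 : dl fam w ∈ (⋃ w ∈ R, AA fam (Sum.inr (Sum.inr w))) ↔ w ∈ R := by
      simp only [mem_iUnion, dl_fam]
      constructor
      · rintro ⟨w, hw, rfl⟩; exact hw
      · intro hv; exact ⟨w, hv, rfl⟩
    have e2 := e1.trans (hR w)
    simp only [T', Set.mem_symmDiff]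
    rintro (⟨e3, e4⟩ | ⟨e3, e4⟩)
    · exact e4 (e2.2 e3)
    · exact e4 (e2.1 e3)
  have hi' : inf fam ∉ T' := by
    have h1 : inf fam ∉ (⋃ w ∈ R, AA fam (Sum.inr (Sum.inr w))) := by
      simp only [mem_iUnion, not_exists]
      intro w _
      exact inf_mem
    simp only [T', Set.mem_symmDiff]
    tauto
  have hcov' : T' ⊆ ⋃ r : ℕ, AA fam (Sum.inl r) := by
    intro x hx
    rcases cases_XX x with ⟨y, rfl⟩ | ⟨w, rfl⟩ | rfl
    · exact mem_iUnion.2 ⟨y.1, pt_row.2 rfl⟩
    · exact absurd hx (hdl w)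
    · exact absurd hx hi'
  obtain ⟨s, hs⟩ := hT'.1.isCompact.elim_finite_subcover _
    (fun r => (isClopen_AA (fam := fam) (Sum.inl r)).2) hcov'
  have hC : KM (pt fam ⁻¹' T') := by
    refine ⟨clo_of_isClopen h hT', s.sup (fun r => r + 1), ?_⟩
    intro x hx
    obtain ⟨r, hr, hx'⟩ := mem_iUnion₂.1 (hs hx)
    rw [pt_row] at hx'
    rw [hx']
    exact lt_of_lt_of_le (Nat.lt_succ_self _) (Finset.le_sup (f := fun r => r + 1) hr)
  refine ⟨R, _, hC, ?_⟩
  have h2 : pt fam '' (pt fam ⁻¹' T') = T' := by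
    rw [Set.image_preimage_eq_iff]
    intro x hx
    rcases cases_XX x with ⟨y, rfl⟩ | ⟨w, rfl⟩ | rfl
    · exact ⟨y, rfl⟩
    · exact absurd hx (hdl w)
    · exact absurd hx hi'
  unfold SS
  rw [h2]
  exact (symmDiff_symmDiff_cancel_right _ _).symm.trans (symmDiff_comm _ _)

/-- distinct points are separated by basic sets -/
lemma exists_sep {x y : XX fam} (hxy : x ≠ y) : ∃ U : Set (XX fam), IsClopen U ∧ x ∈ U ∧ y ∉ U := by
  have : emb fam x ≠ emb fam y := fun h => hxy (emb_injective h)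
  obtain ⟨i, hi⟩ := Function.ne_iff.1 this
  rw [Ne, emb_eq_iff] at hi
  by_cases hx : x ∈ AA fam i
  · exact ⟨AA fam i, isClopen_AA i, hx, fun hy => hi ⟨fun _ => hy, fun _ => hx⟩⟩
  · refine ⟨(AA fam i)ᶜ, (isClopen_AA i).compl, hx, fun hy => hi ⟨fun h' => absurd h' hx,
      fun h' => absurd h' hy⟩⟩

/-- interpolation on finite sets -/
theorem exists_interp (P Q : Finset (XX fam)) : ∃ U : Set (XX fam), IsClopen U ∧
    (∀ x ∈ P, x ∈ U ↔ x ∈ Q) := by
  classical
  have h1 : ∀ x : XX fam, ∃ U : Set (XX fam), IsClopen U ∧ x ∈ U ∧ ∀ y ∈ P, y ≠ x → y ∉ U := by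
    intro x
    have : ∀ y : XX fam, ∃ U : Set (XX fam), IsClopen U ∧ x ∈ U ∧ (y ≠ x → y ∉ U) := by
      intro y
      by_cases hy : y = x
      · exact ⟨univ, isClopen_univ, mem_univ _, fun h => absurd hy h⟩
      · obtain ⟨U, hU, h1, h2⟩ := exists_sep (Ne.symm hy)
        exact ⟨U, hU, h1, fun _ => h2⟩
    choose V hV hxV hyV using this
    refine ⟨⋂ y ∈ P, V y, isClopen_biInter_finset fun y _ => hV y, ?_, ?_⟩
    · simp only [mem_iInter]
      exact fun y _ => hxV y
    · intro y hy hne hmem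
      simp only [mem_iInter] at hmem
      exact hyV y hne (hmem y hy)
  choose U hU hxU hyU using h1
  refine ⟨⋃ x ∈ Q, U x, isClopen_biUnion_finset fun y _ => hU y, ?_⟩
  intro x hx
  simp only [mem_iUnion]
  constructor
  · rintro ⟨y, hy, hxy⟩
    by_cases h : x = y
    · subst h; exact hy
    · exact absurd hxy (hyU y x hx h)
  · intro h
    exact ⟨x, h, hxU x⟩

end Pool.Agent.P8H84.CpTwo
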