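import Mathlib

/-!
# The successor step

`M` is the countable sum of convergent sequences (rows).  Given countably many clopen sets `Bs i` and
countably many tasks, there are disjoint clopen sets `a`, `b`, such that `a ∪ b` is almost disjoint
from the sets `Bs i`, the three sets `a`, `b`, `a ∪ b` fulfil all tasks, and the pair `(a, b)`
lies in a closed set of pairs which contains no pair of compact open sets.
-/

set_option autoImplicit false

open Set

namespace Pool.Agent.P8H84.CpTwo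

/-- the rows `{r} × (ℕ ∪ {∞})`; `none` is the limit of the sequence `some m` -/
abbrev M : Type := ℕ × Option ℕ

/-- clopen subsets of `M` -/
def Clo (U : Set M) : Prop :=
  ∀ r, ∃ m0, ∀ m, m0 ≤ m → (((r, some m) : M) ∈ U ↔ ((r, none) : M) ∈ U)

/-- compact open subsets of `M` -/
def KM (U : Set M) : Prop := Clo U ∧ ∃ n, ∀ x ∈ U, x.1 < n

/-- codes of open sets of subsets of `M` -/
abbrev Code : Type := ℕ → Finset M × Finset M

/-- the open set with the code `c` -/
def OO (c : Code) : Set (Set M) := {U | ∃ n, ∀ x ∈ (c n).1, (x ∈ U ↔ x ∈ (c n).2)}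

/-- a closed set of pairs -/
def InE (a b : Set M) : Prop :=
  (((0, none) : M) ∈ a ∪ b) ∧
  ∀ r m, ((((r, none) : M) ∈ a ∧ ((r, some m) : M) ∈ a) ∨
    (((r, none) : M) ∈ b ∧ ((r, some m) : M) ∈ b)) →
    ∃ r', r < r' ∧ r' ≤ m ∧ ((r', none) : M) ∈ a ∪ b

lemma Clo.comb {U V : Set M} (hU : Clo U) (hV : Clo V) (P : Prop → Prop → Prop) :
    Clo {x | P (x ∈ U) (x ∈ V)} := by
  intro r
  obtain ⟨m1, h1⟩ := hU r
  obtain ⟨m2, h2⟩ := hV r
  refine ⟨max m1 m2, fun m hm => ?_⟩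
  have e1 := propext (h1 m ((le_max_left _ _).trans hm))
  have e2 := propext (h2 m ((le_max_right _ _).trans hm))
  show P _ _ ↔ P _ _
  rw [e1, e2]

lemma Clo.union {U V : Set M} (hU : Clo U) (hV : Clo V) : Clo (U ∪ V) :=
  hU.comb hV fun p q => p ∨ q

lemma Clo.inter {U V : Set M} (hU : Clo U) (hV : Clo V) : Clo (U ∩ V) :=
  hU.comb hV fun p q => p ∧ q

lemma Clo.diff {U V : Set M} (hU : Clo U) (hV : Clo V) : Clo (U \ V) :=
  hU.comb hV fun p q => p ∧ ¬ q

lemma Clo.symmDiff {U V : Set M} (hU : Clo U) (hV : Clo V) : Clo (symmDiff U V) := by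
  have := hU.comb hV fun p q => (p ∧ ¬ q) ∨ (q ∧ ¬ p)
  exact this

lemma Clo.compl {U : Set M} (hU : Clo U) : Clo Uᶜ := hU.comb hU fun p _ => ¬ p

lemma clo_empty : Clo ∅ := fun _ => ⟨0, fun _ _ => by simp⟩

lemma km_empty : KM ∅ := ⟨clo_empty, 0, by simp⟩

lemma clo_biUnion {ι : Type*} (s : Finset ι) (f : ι → Set M) (h : ∀ i ∈ s, Clo (f i)) :
    Clo (⋃ i ∈ s, f i) := by
  classical
  induction s using Finset.induction_on with
  | empty => simpa using clo_empty
  | insert a s ha ih =>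
    rw [Finset.set_biUnion_insert]
    exact (h a (Finset.mem_insert_self _ _)).union
      (ih fun i hi => h i (Finset.mem_insert_of_mem hi))

lemma KM.symmDiff {U V : Set M} (hU : KM U) (hV : KM V) : KM (symmDiff U V) := by
  obtain ⟨hU, n, hn⟩ := hU
  obtain ⟨hV, m, hm⟩ := hV
  refine ⟨hU.symmDiff hV, max n m, ?_⟩
  rintro x (⟨h, -⟩ | ⟨h, -⟩)
  · exact (hn x h).trans_le (le_max_left _ _)
  · exact (hm x h).trans_le (le_max_right _ _)

/-- There are only countably many compact open sets. -/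
theorem countable_KM : {U : Set M | KM U}.Countable := by
  have hsub : {U : Set M | KM U} ⊆ ⋃ p : ℕ × ℕ, {U : Set M | (∀ x ∈ U, x.1 < p.1) ∧
      ∀ r m, p.2 ≤ m → (((r, some m) : M) ∈ U ↔ ((r, none) : M) ∈ U)} := by
    rintro U ⟨hU, n, hn⟩
    choose f hf using hU
    obtain ⟨m0, hm0⟩ : ∃ m0, ∀ r < n, f r ≤ m0 :=
      ⟨(Finset.range n).sup f, fun r hr => Finset.le_sup (f := f) (Finset.mem_range.2 hr)⟩
    refine mem_iUnion.2 ⟨(n, m0), hn, ?_⟩
    intro r m hm
    by_cases hr : r < n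
    · exact hf r m ((hm0 r hr).trans hm)
    · constructor
      · intro h; exact absurd (hn _ h) hr
      · intro h; exact absurd (hn _ h) hr
  refine Set.Countable.mono hsub (Set.countable_iUnion ?_)
  rintro ⟨n, m0⟩
  refine Set.Finite.countable ?_
  -- the sets are determined by their trace on a finite set
  let F : Finset M := (Finset.range n) ×ˢ (insert none ((Finset.range m0).image some))
  have hfin : {S : Set M | S ⊆ (F : Set M)}.Finite := (Finset.finite_toSet F).finite_subsets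
  refine Set.Finite.of_injOn (f := fun U : Set M => U ∩ (F : Set M))
    (t := {S : Set M | S ⊆ (F : Set M)}) ?_ ?_ hfin
  · intro U _
    exact inter_subset_right
  · rintro U ⟨hU1, hU2⟩ V ⟨hV1, hV2⟩ h
    have h' : ∀ x ∈ F, (x ∈ U ↔ x ∈ V) := by
      intro x hx
      have := Set.ext_iff.1 h x
      constructor
      · intro hxU
        exact (this.1 ⟨hxU, hx⟩).1
      · intro hxV
        exact (this.2 ⟨hxV, hx⟩).1
    ext ⟨r, o⟩
    by_cases hr : r < n
    · have hnone : (((r, none) : M) ∈ U ↔ ((r, none) : M) ∈ V) := by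
        apply h'
        simp [F, hr]
      cases o with
      | none => exact hnone
      | some m =>
        by_cases hm : m < m0
        · apply h'
          simp [F, hr, hm]
        · have hm' : m0 ≤ m := not_lt.1 hm
          rw [hU2 r m hm', hV2 r m hm', hnone]
    · constructor
      · intro h; exact absurd (hU1 _ h) hr
      · intro h; exact absurd (hV1 _ h) hr

/-- the stability of membership in an open set -/
lemma good_exists {c : Code} {S e C : Set M} (hS : Clo S) (he : KM e) (hC : KM C)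
    (hT : ∀ D, KM D → symmDiff S D ∈ OO c) :
    ∃ N, ∀ n', N ≤ n' → ∀ e' : Set M, (∀ x : M, x.1 < n' → (x ∈ e' ↔ x ∈ e)) →
      symmDiff (S ∪ e') C ∈ OO c := by
  have h1 : KM (symmDiff (e \ S) C) := by
    refine KM.symmDiff ⟨he.1.diff hS, ?_⟩ hC
    obtain ⟨n, hn⟩ := he.2
    exact ⟨n, fun x hx => hn x hx.1⟩
  obtain ⟨i, hi⟩ := hT _ h1
  refine ⟨(c i).1.sup (fun x => x.1 + 1), fun n' hn' e' he' => ⟨i, fun x hx => ?_⟩⟩
  have hxn : x.1 < n' := lt_of_lt_of_le (Nat.lt_succ_self _)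
    ((Finset.le_sup (f := fun x : M => x.1 + 1) hx).trans hn')
  rw [← hi x hx]
  have := he' x hxn
  simp only [Set.mem_symmDiff, mem_union, mem_sdiff]
  rw [this]
  tauto

/-- the union of the first sets -/
def VV (Bs : ℕ → Set M) (j : ℕ) : Set M := {x | ∃ i < j, x ∈ Bs i}

lemma clo_VV {Bs : ℕ → Set M} (hB : ∀ i, Clo (Bs i)) (j : ℕ) : Clo (VV Bs j) := by
  induction j with
  | zero =>
    have : VV Bs 0 = ∅ := by ext x; simp [VV]
    rw [this]; exact clo_empty
  | succ j ih =>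
    have : VV Bs (j + 1) = VV Bs j ∪ Bs j := by
      ext x
      simp only [VV, mem_union]
      constructor
      · rintro ⟨i, hi, hx⟩
        rcases Nat.lt_succ_iff_lt_or_eq.1 hi with h | h
        · exact Or.inl ⟨i, h, hx⟩
        · subst h; exact Or.inr hx
      · rintro (⟨i, hi, hx⟩ | hx)
        · exact ⟨i, Nat.lt_succ_of_lt hi, hx⟩
        · exact ⟨j, Nat.lt_succ_self _, hx⟩
    rw [this]
    exact ih.union (hB j)

/-- the part of the new row in the first set -/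
def NA (V : Set M) (j n n' : ℕ) : Set M :=
  {x | x.1 = n ∧ x ∉ V ∧ j % 3 ≠ 1 ∧ (x.2 = none ∨ ∃ m, x.2 = some m ∧ n' ≤ m)}

/-- the part of the new row in the second set -/
def NB (V : Set M) (j n n' : ℕ) : Set M :=
  {x | x.1 = n ∧ x ∉ V ∧ ((j % 3 = 1 ∧ (x.2 = none ∨ ∃ m, x.2 = some m ∧ n' ≤ m)) ∨
    (j % 3 = 0 ∧ ∃ m, x.2 = some m ∧ m < n'))}

/-- the new row -/
def NJ (V : Set M) (n : ℕ) : Set M := {x | x.1 = n ∧ x ∉ V}

lemma clo_NJ {V : Set M} (hV : Clo V) (n : ℕ) : Clo (NJ V n) := by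
  intro r
  obtain ⟨m0, hm0⟩ := hV r
  refine ⟨m0, fun m hm => ?_⟩
  simp only [NJ, mem_ofPred_eq]
  rw [hm0 m hm]

lemma clo_NA {V : Set M} (hV : Clo V) (j n n' : ℕ) : Clo (NA V j n n') := by
  intro r
  obtain ⟨m0, hm0⟩ := hV r
  refine ⟨max m0 n', fun m hm => ?_⟩
  simp only [NA, mem_ofPred_eq]
  rw [hm0 m ((le_max_left _ _).trans hm)]
  have h2 : n' ≤ m := (le_max_right _ _).trans hm
  simp [h2]

lemma clo_NB {V : Set M} (hV : Clo V) (j n n' : ℕ) : Clo (NB V j n n') := by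
  intro r
  obtain ⟨m0, hm0⟩ := hV r
  refine ⟨max m0 n', fun m hm => ?_⟩
  simp only [NB, mem_ofPred_eq]
  rw [hm0 m ((le_max_left _ _).trans hm)]
  have h2 : n' ≤ m := (le_max_right _ _).trans hm
  simp [h2]

/-- the approximations -/
abbrev State : Type := ℕ × Set M × Set M

/-- the invariant -/
def Inv (V : ℕ → Set M) (j : ℕ) (s : State) : Prop :=
  Clo s.2.1 ∧ Clo s.2.2 ∧ (∀ x ∈ s.2.1 ∪ s.2.2, x.1 < s.1) ∧ Disjoint s.2.1 s.2.2 ∧
    ((s.1, none) : M) ∉ V j

/-- the successor relation; `G e n'` is the task, to be fulfilled for the set `e` -/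
def Rel (V : ℕ → Set M) (G : ℕ → Set M → ℕ → Prop) (j : ℕ) (s s' : State) : Prop :=
  s.1 < s'.1 ∧ s'.2.1 = s.2.1 ∪ NA (V j) j s.1 s'.1 ∧ s'.2.2 = s.2.2 ∪ NB (V j) j s.1 s'.1 ∧
  (∃ r', s.1 < r' ∧ r' < s'.1 ∧ ((r', none) : M) ∉ V (j + 1)) ∧
  (j % 3 = 0 → G j (s.2.1 ∪ s.2.2 ∪ NJ (V j) s.1) s'.1) ∧
  (j % 3 = 1 → G j s.2.1 s'.1) ∧ (j % 3 = 2 → G j s.2.2 s'.1)

lemma exists_rel {V : ℕ → Set M} (hV : ∀ j, Clo (V j)) (hav : ∀ j, {r | ((r, none) : M) ∉ V j}.Infinite)
    {G : ℕ → Set M → ℕ → Prop} (hG : ∀ j e, KM e → ∃ N, ∀ n', N ≤ n' → G j e n')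
    (j : ℕ) (s : {s : State // Inv V j s}) :
    ∃ s' : {s : State // Inv V (j + 1) s}, Rel V G j s.1 s'.1 := by
  obtain ⟨⟨n, k, l⟩, h1, h2, h3, h4, h5⟩ := s
  dsimp only at h1 h2 h3 h4 h5
  have hk : KM k := ⟨h1, n, fun x hx => h3 x (Or.inl hx)⟩
  have hl : KM l := ⟨h2, n, fun x hx => h3 x (Or.inr hx)⟩
  have hJ : KM (k ∪ l ∪ NJ (V j) n) := by
    refine ⟨(h1.union h2).union (clo_NJ (hV j) n), n + 1, ?_⟩
    rintro x (hx | hx)
    · exact (h3 x hx).trans (Nat.lt_succ_self _)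
    · exact lt_of_le_of_lt hx.1.le (Nat.lt_succ_self _)
  obtain ⟨N0, hN0⟩ := hG j _ hJ
  obtain ⟨N1, hN1⟩ := hG j _ hk
  obtain ⟨N2, hN2⟩ := hG j _ hl
  obtain ⟨r', hr', hnr'⟩ := (hav (j + 1)).exists_gt n
  obtain ⟨n', hn', hnn'⟩ := (hav (j + 1)).exists_gt (max r' (max N0 (max N1 N2)))
  have g1 : r' < n' := (le_max_left _ _).trans_lt hnn'
  have g2 : max N0 (max N1 N2) ≤ n' := (le_max_right _ _).trans hnn'.le
  have g3 : n < n' := hnr'.trans g1
  refine ⟨⟨(n', k ∪ NA (V j) j n n', l ∪ NB (V j) j n n'), h1.union (clo_NA (hV j) _ _ _),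
    h2.union (clo_NB (hV j) _ _ _), ?_, ?_, hn'⟩, g3, rfl, rfl, ⟨r', hnr', g1, hr'⟩,
    fun _ => hN0 n' ((le_max_left _ _).trans g2),
    fun _ => hN1 n' ((le_max_left _ _).trans ((le_max_right _ _).trans g2)),
    fun _ => hN2 n' ((le_max_right _ _).trans ((le_max_right _ _).trans g2))⟩
  · rintro x ((hx | hx) | (hx | hx))
    · exact (h3 x (Or.inl hx)).trans g3
    · exact lt_of_le_of_lt hx.1.le g3
    · exact (h3 x (Or.inr hx)).trans g3
    · exact lt_of_le_of_lt hx.1.le g3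
  · rw [Set.disjoint_left] at h4 ⊢
    rintro x (hx | hx) (hy | hy)
    · exact h4 hx hy
    · exact absurd (h3 x (Or.inl hx)) (by rw [hy.1]; exact lt_irrefl _)
    · exact absurd (h3 x (Or.inr hy)) (by rw [hx.1]; exact lt_irrefl _)
    · obtain ⟨-, -, e1, e2⟩ := hx
      obtain ⟨-, -, e3⟩ := hy
      rcases e3 with ⟨e3, -⟩ | ⟨e3, m, e4, e5⟩
      · exact e1 e3
      · rcases e2 with e2 | ⟨m', e2, e6⟩
        · rw [e2] at e4; exact (Option.some_ne_none _ e4.symm).elim
        · rw [e2] at e4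
          have := Option.some_injective _ e4
          omega

/-- **The successor step.** -/
theorem step (Bs : ℕ → Set M) (hB : ∀ i, Clo (Bs i))
    (hav : ∀ n, {r | ((r, none) : M) ∉ VV Bs n}.Infinite) (T : ℕ → Code × Set M)
    (hT : ∀ t, Clo (T t).2 ∧ ∀ D, KM D → symmDiff (T t).2 D ∈ OO (T t).1) :
    ∃ a b : Set M, Clo a ∧ Clo b ∧ Disjoint a b ∧ InE a b ∧
      (∀ i, ∃ n, ∀ x ∈ (a ∪ b) ∩ Bs i, x.1 < n) ∧
      (∀ n, {r | ((r, none) : M) ∉ (a ∪ b) ∪ VV Bs n}.Infinite) ∧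
      ∀ t C, KM C → symmDiff ((T t).2 ∪ a) C ∈ OO (T t).1 ∧
        symmDiff ((T t).2 ∪ b) C ∈ OO (T t).1 ∧ symmDiff ((T t).2 ∪ (a ∪ b)) C ∈ OO (T t).1 := by
  classical
  obtain ⟨kc, hkc⟩ := countable_KM.exists_eq_range ⟨∅, km_empty⟩
  have hkc' : ∀ i, KM (kc i) := fun i => by
    have : kc i ∈ {U : Set M | KM U} := by rw [hkc]; exact mem_range_self i
    exact this
  let V : ℕ → Set M := VV Bs
  let tk : ℕ → ℕ := fun j => (Nat.unpair (j / 3)).1
  let cc : ℕ → Set M := fun j => kc (Nat.unpair (j / 3)).2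
  let G : ℕ → Set M → ℕ → Prop := fun j e n' =>
    ∀ e' : Set M, (∀ x : M, x.1 < n' → (x ∈ e' ↔ x ∈ e)) →
      symmDiff ((T (tk j)).2 ∪ e') (cc j) ∈ OO (T (tk j)).1
  have hG : ∀ j e, KM e → ∃ N, ∀ n', N ≤ n' → G j e n' := fun j e he =>
    good_exists (hT (tk j)).1 he (hkc' _) (hT (tk j)).2
  have hV : ∀ j, Clo (V j) := fun j => clo_VV hB j
  have hr := exists_rel hV hav hG
  choose g hg using hr
  have h0 : Inv V 0 (0, ∅, ∅) := by
    refine ⟨clo_empty, clo_empty, by simp, by simp, ?_⟩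
    rintro ⟨i, hi, -⟩
    exact absurd hi (Nat.not_lt_zero _)
  let st : (j : ℕ) → {s : State // Inv V j s} := fun j =>
    Nat.rec (motive := fun j => {s : State // Inv V j s}) ⟨_, h0⟩ (fun j s => g j s) j
  have hst : ∀ j, Rel V G j (st j).1 (st (j + 1)).1 := fun j => hg j (st j)
  let nn : ℕ → ℕ := fun j => (st j).1.1
  let kk : ℕ → Set M := fun j => (st j).1.2.1
  let ll : ℕ → Set M := fun j => (st j).1.2.2
  have hnn0 : nn 0 = 0 := rfl
  have hkk0 : kk 0 = ∅ := rfl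
  have hll0 : ll 0 = ∅ := rfl
  have hinv : ∀ j, Inv V j (nn j, kk j, ll j) := fun j => (st j).2
  have hlt : ∀ j, nn j < nn (j + 1) := fun j => (hst j).1
  have hmono : StrictMono nn := strictMono_nat_of_lt_succ hlt
  have hk : ∀ j, kk (j + 1) = kk j ∪ NA (V j) j (nn j) (nn (j + 1)) := fun j => (hst j).2.1
  have hl : ∀ j, ll (j + 1) = ll j ∪ NB (V j) j (nn j) (nn (j + 1)) := fun j => (hst j).2.2.1
  have hVmono : ∀ i j, i ≤ j → V i ⊆ V j := by
    rintro i j hij x ⟨q, hq, hx⟩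
    exact ⟨q, hq.trans_le hij, hx⟩
  -- description of the two sets
  have hkd : ∀ j x, x ∈ kk j ↔ ∃ i < j, x ∈ NA (V i) i (nn i) (nn (i + 1)) := by
    intro j
    induction j with
    | zero => intro x; rw [hkk0]; simp
    | succ j ih =>
      intro x
      rw [hk, mem_union, ih]
      constructor
      · rintro (⟨i, hi, h⟩ | h)
        · exact ⟨i, hi.trans (Nat.lt_succ_self _), h⟩
        · exact ⟨j, Nat.lt_succ_self _, h⟩
      · rintro ⟨i, hi, h⟩
        rcases Nat.lt_succ_iff_lt_or_eq.1 hi with h' | h'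
        · exact Or.inl ⟨i, h', h⟩
        · subst h'; exact Or.inr h
  have hld : ∀ j x, x ∈ ll j ↔ ∃ i < j, x ∈ NB (V i) i (nn i) (nn (i + 1)) := by
    intro j
    induction j with
    | zero => intro x; rw [hll0]; simp
    | succ j ih =>
      intro x
      rw [hl, mem_union, ih]
      constructor
      · rintro (⟨i, hi, h⟩ | h)
        · exact ⟨i, hi.trans (Nat.lt_succ_self _), h⟩
        · exact ⟨j, Nat.lt_succ_self _, h⟩
      · rintro ⟨i, hi, h⟩
        rcases Nat.lt_succ_iff_lt_or_eq.1 hi with h' | h'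
        · exact Or.inl ⟨i, h', h⟩
        · subst h'; exact Or.inr h
  let a : Set M := {x | ∃ i, x ∈ NA (V i) i (nn i) (nn (i + 1))}
  let b : Set M := {x | ∃ i, x ∈ NB (V i) i (nn i) (nn (i + 1))}
  have hak : ∀ j x, x.1 < nn j → (x ∈ a ↔ x ∈ kk j) := by
    intro j x hx
    rw [hkd]
    constructor
    · rintro ⟨i, hi⟩
      have h1 : nn i < nn j := by rw [← hi.1]; exact hx
      exact ⟨i, hmono.lt_iff_lt.1 h1, hi⟩
    · rintro ⟨i, -, hi⟩
      exact ⟨i, hi⟩
  have hbl : ∀ j x, x.1 < nn j → (x ∈ b ↔ x ∈ ll j) := by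
    intro j x hx
    rw [hld]
    constructor
    · rintro ⟨i, hi⟩
      have h1 : nn i < nn j := by rw [← hi.1]; exact hx
      exact ⟨i, hmono.lt_iff_lt.1 h1, hi⟩
    · rintro ⟨i, -, hi⟩
      exact ⟨i, hi⟩
  have hrow : ∀ x ∈ a ∪ b, ∃ i, x.1 = nn i ∧ x ∉ V i := by
    rintro x (⟨i, hi⟩ | ⟨i, hi⟩)
    · exact ⟨i, hi.1, hi.2.1⟩
    · exact ⟨i, hi.1, hi.2.1⟩
  have hid : ∀ j, j ≤ nn j := fun j => hmono.id_le j
  -- the points at infinity of the rows
  have hp : ∀ j, ((nn j, none) : M) ∈ a ∪ b := by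
    intro j
    have h5 : ((nn j, none) : M) ∉ V j := (hinv j).2.2.2.2
    by_cases hj : j % 3 = 1
    · exact Or.inr ⟨j, rfl, h5, Or.inl ⟨hj, Or.inl rfl⟩⟩
    · exact Or.inl ⟨j, rfl, h5, hj, Or.inl rfl⟩
  refine ⟨a, b, ?_, ?_, ?_, ⟨?_, ?_⟩, ?_, ?_, ?_⟩
  · intro r
    have hr : r < nn (r + 1) := hid (r + 1)
    obtain ⟨m0, hm0⟩ := (hinv (r + 1)).1 r
    refine ⟨m0, fun m hm => ?_⟩
    rw [hak (r + 1) _ hr, hak (r + 1) _ hr]
    exact hm0 m hm
  · intro r
    have hr : r < nn (r + 1) := hid (r + 1)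
    obtain ⟨m0, hm0⟩ := (hinv (r + 1)).2.1 r
    refine ⟨m0, fun m hm => ?_⟩
    rw [hbl (r + 1) _ hr, hbl (r + 1) _ hr]
    exact hm0 m hm
  · rw [Set.disjoint_left]
    intro x hxa hxb
    have hr : x.1 < nn (x.1 + 1) := hid (x.1 + 1)
    rw [hak (x.1 + 1) _ hr] at hxa
    rw [hbl (x.1 + 1) _ hr] at hxb
    exact Set.disjoint_left.1 (hinv (x.1 + 1)).2.2.2.1 hxa hxb
  · have := hp 0
    rw [hnn0] at this
    exact this
  · rintro r m (⟨⟨i, hi⟩, ⟨j, hj⟩⟩ | ⟨⟨i, hi⟩, ⟨j, hj⟩⟩)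
    · have hij : i = j := hmono.injective (by rw [← hi.1, ← hj.1])
      subst hij
      obtain ⟨h1, -, -, h2⟩ := hj
      rcases h2 with h2 | ⟨m', h2, h3⟩
      · exact (Option.some_ne_none _ h2).elim
      · have : m = m' := Option.some_injective _ h2
        subst this
        refine ⟨nn (i + 1), ?_, h3, hp (i + 1)⟩
        rw [show r = nn i from h1]
        exact hlt i
    · have hij : i = j := hmono.injective (by rw [← hi.1, ← hj.1])
      subst hij
      obtain ⟨h1, -, h2⟩ := hj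
      obtain ⟨-, -, h4⟩ := hi
      rcases h4 with ⟨h4, -⟩ | ⟨-, m', h4, -⟩
      · rcases h2 with ⟨-, h2⟩ | ⟨h2, -⟩
        · rcases h2 with h2 | ⟨m', h2, h3⟩
          · exact (Option.some_ne_none _ h2).elim
          · have : m = m' := Option.some_injective _ h2
            subst this
            refine ⟨nn (i + 1), ?_, h3, hp (i + 1)⟩
            rw [show r = nn i from h1]
            exact hlt i
        · omega
      · exact (Option.some_ne_none _ h4.symm).elim
  · intro i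
    refine ⟨nn i + 1, ?_⟩
    rintro x ⟨hx, hxB⟩
    obtain ⟨j, hj, hjV⟩ := hrow x hx
    rw [hj]
    have : ¬ i < j := fun h => hjV ⟨i, h, hxB⟩
    exact Nat.lt_succ_of_le (hmono.monotone (not_lt.1 this))
  · intro n
    rw [Set.infinite_iff_exists_gt]
    intro q
    obtain ⟨-, -, -, ⟨r', h1, h2, h3⟩, -⟩ := hst (max q n)
    refine ⟨r', ?_, ?_⟩
    · rintro (h | h)
      · obtain ⟨i, hi, -⟩ := hrow _ h
        have e1 : nn (max q n) < nn i := lt_of_lt_of_eq h1 hi
        have e2 : nn i < nn (max q n + 1) := lt_of_eq_of_lt hi.symm h2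
        have e3 : max q n < i := (hmono.lt_iff_lt (a := max q n) (b := i)).1 e1
        have e4 : i < max q n + 1 := (hmono.lt_iff_lt (a := i) (b := max q n + 1)).1 e2
        omega
      · exact h3 (hVmono _ _ ((le_max_right q n).trans (Nat.le_succ _)) h)
    · calc q ≤ max q n := le_max_left _ _
        _ ≤ nn (max q n) := hid _
        _ < r' := h1
  · intro t C hC
    obtain ⟨c, hc⟩ : ∃ c, kc c = C := by
      have : C ∈ range kc := by rw [← hkc]; exact hC
      exact this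
    have htk : ∀ i < 3, tk (3 * Nat.pair t c + i) = t := by
      intro i hi
      show (Nat.unpair ((3 * Nat.pair t c + i) / 3)).1 = t
      have : (3 * Nat.pair t c + i) / 3 = Nat.pair t c := by omega
      rw [this, Nat.unpair_pair]
    have hcc : ∀ i < 3, cc (3 * Nat.pair t c + i) = C := by
      intro i hi
      show kc (Nat.unpair ((3 * Nat.pair t c + i) / 3)).2 = C
      have : (3 * Nat.pair t c + i) / 3 = Nat.pair t c := by omega
      rw [this, Nat.unpair_pair, hc]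
    refine ⟨?_, ?_, ?_⟩
    · have h := (hst (3 * Nat.pair t c + 1)).2.2.2.2.2.1 (by omega)
      have h' := h a (by
        intro x hx
        rw [hak (3 * Nat.pair t c + 1 + 1) x hx, hk]
        show x ∈ kk (3 * Nat.pair t c + 1) ∪ _ ↔ x ∈ kk (3 * Nat.pair t c + 1)
        rw [mem_union]
        constructor
        · rintro (h1 | h1)
          · exact h1
          · exact absurd (show (3 * Nat.pair t c + 1) % 3 = 1 by omega) h1.2.2.1
        · exact Or.inl)
      rw [htk 1 (by norm_num), hcc 1 (by norm_num)] at h'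
      exact h'
    · have h := (hst (3 * Nat.pair t c + 2)).2.2.2.2.2.2 (by omega)
      have h' := h b (by
        intro x hx
        rw [hbl (3 * Nat.pair t c + 2 + 1) x hx, hl]
        show x ∈ ll (3 * Nat.pair t c + 2) ∪ _ ↔ x ∈ ll (3 * Nat.pair t c + 2)
        rw [mem_union]
        constructor
        · rintro (h1 | h1)
          · exact h1
          · obtain ⟨-, -, h2⟩ := h1
            rcases h2 with ⟨h2, -⟩ | ⟨h2, -⟩
            · omega
            · omega
        · exact Or.inl)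
      rw [htk 2 (by norm_num), hcc 2 (by norm_num)] at h'
      exact h'
    · have h := (hst (3 * Nat.pair t c + 0)).2.2.2.2.1 (by omega)
      have h' := h (a ∪ b) (by
        intro x hx
        rw [mem_union, hak (3 * Nat.pair t c + 0 + 1) x hx, hbl (3 * Nat.pair t c + 0 + 1) x hx, hk, hl]
        show (x ∈ kk _ ∪ _ ∨ x ∈ ll _ ∪ _) ↔ x ∈ kk _ ∪ ll _ ∪ _
        simp only [mem_union]
        constructor
        · rintro ((h1 | h1) | (h1 | h1))
          · exact Or.inl (Or.inl h1)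
          · exact Or.inr ⟨h1.1, h1.2.1⟩
          · exact Or.inl (Or.inr h1)
          · exact Or.inr ⟨h1.1, h1.2.1⟩
        · rintro ((h1 | h1) | h1)
          · exact Or.inl (Or.inl h1)
          · exact Or.inr (Or.inl h1)
          · obtain ⟨h2, h3⟩ := h1
            rcases ho : x.2 with _ | m
            · exact Or.inl (Or.inr ⟨h2, h3, by omega, Or.inl ho⟩)
            · by_cases hm : nn (3 * Nat.pair t c + 0 + 1) ≤ m
              · exact Or.inl (Or.inr ⟨h2, h3, by omega, Or.inr ⟨m, ho, hm⟩⟩)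
              · exact Or.inr (Or.inr ⟨h2, h3, Or.inr ⟨by omega, m, ho, not_le.1 hm⟩⟩))
      rw [htk 0 (by norm_num), hcc 0 (by norm_num)] at h'
      exact h'

end Pool.Agent.P8H84.CpTwo
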